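import Pool.Agent.X252.MTC

/-!
Relations in the graded ring of the group ring of a finite abelian `p`-group in degree `p + 1`, and the
graded pieces for cyclic groups in all degrees.
-/

set_option autoImplicit false

namespace Pool.Agent.K9h97.MTP

open Finset Pool.Agent.X252.MT

lemma choose_p {p : ℕ} (hp : p.Prime) (b : ℕ) (hb : 1 ≤ b) :
    ∃ c : ℤ, ((p ^ b).choose p : ℤ) = (p : ℤ) ^ (b - 1) * (1 + p * c) := by
  have hF : Fact p.Prime := ⟨hp⟩
  obtain ⟨m, rfl⟩ : ∃ m, b = m + 1 := ⟨b - 1, by omega⟩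
  obtain ⟨q, hq⟩ : ∃ q, p ^ (m + 1) = q + 1 := ⟨p ^ (m + 1) - 1, by
    have := pow_pos hp.pos (m + 1)
    omega⟩
  obtain ⟨s, hs⟩ : ∃ s, p = s + 1 := ⟨p - 1, by have := hp.pos; omega⟩
  obtain ⟨r, hr⟩ : ∃ r, p ^ m = r + 1 := ⟨p ^ m - 1, by
    have := pow_pos hp.pos m
    omega⟩
  have h1 := Nat.add_one_mul_choose_eq q s
  rw [← hq, ← hs] at h1
  have h2 : (p ^ (m + 1)).choose p = p ^ m * q.choose s := by
    have h3 : p * (p ^ (m + 1)).choose p = p * (p ^ m * q.choose s) := by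
      rw [mul_comm p ((p ^ (m + 1)).choose p), ← h1, pow_succ]
      ring
    exact Nat.eq_of_mul_eq_mul_left hp.pos h3
  have h3 : q.choose s ≡ 1 [MOD p] := by
    have h4 := Choose.choose_modEq_choose_mod_mul_choose_div_nat (n := q) (k := s) (p := p)
    have h5 : q = p * r + s := by
      have : q + 1 = p * r + (s + 1) := by
        rw [← hq, pow_succ, hr, ← hs]
        ring
      omega
    have h6 : s % p = s := Nat.mod_eq_of_lt (by omega)
    have h7 : s / p = 0 := Nat.div_eq_of_lt (by omega)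
    have h8 : q % p = s := by
      rw [h5, Nat.mul_add_mod, h6]
    rw [h8, h6, h7, Nat.choose_self, Nat.choose_zero_right, mul_one] at h4
    exact h4
  obtain ⟨c, hc⟩ := (Nat.modEq_iff_dvd).1 h3
  refine ⟨-c, ?_⟩
  rw [h2, Nat.add_sub_cancel]
  push_cast
  have : (q.choose s : ℤ) = 1 - p * c := by
    push_cast at hc
    linarith
  rw [this]
  ring

lemma rel1 {R : Type} [CommRing R] (I : Ideal R) {p : ℕ} (hp : p.Prime) {b : ℕ} (hb : 1 ≤ b)
    {x : R} (hx : x ∈ I) (h : (x + 1) ^ (p ^ b) = 1) :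
    (p : R) ^ b * x + (p : R) ^ (b - 1) * x ^ p ∈ I ^ (p + 1) := by
  have hp2 := hp.two_le
  obtain ⟨c, hc⟩ := choose_p hp b hb
  have hpN : p ≤ p ^ b := Nat.le_self_pow (by omega) p
  -- the expansion
  have h1 : (x + 1) ^ (p ^ b) = ∑ m ∈ range (p ^ b + 1), x ^ m * ((p ^ b).choose m : R) := by
    rw [add_pow]
    refine Finset.sum_congr rfl fun m _ => ?_
    rw [one_pow, mul_one]
  rw [h, Finset.range_eq_Ico, ← Finset.sum_Ico_consecutive _ (Nat.zero_le (p + 1))
    (by omega : p + 1 ≤ p ^ b + 1), ← Finset.range_eq_Ico, Finset.sum_range_succ] at h1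
  have hr : ∑ m ∈ Ico (p + 1) (p ^ b + 1), x ^ m * ((p ^ b).choose m : R) ∈ I ^ (p + 1) := by
    refine Ideal.sum_mem _ fun m hm => ?_
    rw [Finset.mem_Ico] at hm
    exact Ideal.mul_mem_right _ _ (Ideal.pow_le_pow_right hm.1 (Ideal.pow_mem_pow hx m))
  set r : R := ∑ m ∈ Ico (p + 1) (p ^ b + 1), x ^ m * ((p ^ b).choose m : R) with hrdef
  obtain ⟨y, hy⟩ : ∃ y : R, ∑ m ∈ range p, x ^ m * ((p ^ b).choose m : R) =
      1 + (p : R) ^ b * x * (1 + x * y) := by
    obtain ⟨q, hq⟩ : ∃ q, p = q + 2 := ⟨p - 2, by omega⟩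
    have hrange : ∑ m ∈ range p, x ^ m * ((p ^ b).choose m : R) =
        ∑ m ∈ range (q + 2), x ^ m * ((p ^ b).choose m : R) := by
      rw [← hq]
    rw [hrange, Finset.sum_range_succ', Finset.sum_range_succ']
    have h2 : ∀ m ∈ range q, ∃ c : ℕ, (p ^ b).choose (m + 1 + 1) = p ^ b * c := fun m hm =>
      choose_dvd hp b (by omega) (by rw [Finset.mem_range] at hm; omega)
    choose! c hc using h2
    have h3 : ∑ m ∈ range q, x ^ (m + 1 + 1) * (((p ^ b).choose (m + 1 + 1) : ℕ) : R) =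
        (p : R) ^ b * x * (x * (∑ m ∈ range q, x ^ m * (c m : R))) := by
      rw [Finset.mul_sum, Finset.mul_sum]
      refine Finset.sum_congr rfl fun m hm => ?_
      rw [hc m hm]
      push_cast
      ring
    rw [h3]
    refine ⟨∑ m ∈ range q, x ^ m * (c m : R), ?_⟩
    simp only [zero_add, pow_zero, pow_one, Nat.choose_one_right, Nat.choose_zero_right,
      Nat.cast_one, mul_one]
    push_cast
    ring
  have hc' : ((p ^ b).choose p : R) = (p : R) ^ (b - 1) * (1 + p * c) := by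
    have := congrArg (fun n : ℤ => (n : R)) hc
    push_cast at this
    exact this
  rw [hy, hc'] at h1
  -- the equation
  have heq : (p : R) ^ b * x = -((p : R) ^ b * x * (x * y)) -
      x ^ p * ((p : R) ^ (b - 1) * (1 + p * c)) - r := by
    linear_combination -h1
  have hxp : x ^ p ∈ I ^ p := Ideal.pow_mem_pow hx p
  have hA : ∀ m ≤ p, (p : R) ^ b * x ∈ I ^ m := by
    intro m
    induction m with
    | zero => intro _; simp
    | succ m ih =>
      intro hm
      have h5 := ih (by omega)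
      rw [heq]
      refine Ideal.sub_mem _ (Ideal.sub_mem _ ?_ ?_) ?_
      · rw [Ideal.neg_mem_iff, pow_succ]
        exact Ideal.mul_mem_mul h5 (Ideal.mul_mem_right _ _ hx)
      · exact Ideal.mul_mem_right _ _ (Ideal.pow_le_pow_right hm hxp)
      · exact Ideal.pow_le_pow_right (by omega) hr
  have hAp := hA p le_rfl
  have hpb : (p : R) ^ (b - 1) * p = (p : R) ^ b := by
    rw [← pow_succ, Nat.sub_add_cancel hb]
  have hxx : x ^ p = x * x ^ (p - 1) := by
    rw [← pow_succ', Nat.sub_add_cancel (by omega)]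
  have e : (p : R) ^ b * x + (p : R) ^ (b - 1) * x ^ p =
      -((p : R) ^ b * x * (x * y)) - ((p : R) ^ b * x * x ^ (p - 1)) * c - r := by
    have e2 : ((p : R) ^ b * x * x ^ (p - 1)) * c = (p : R) ^ (b - 1) * p * x ^ p * c := by
      rw [hpb, hxx]
      ring
    rw [e2]
    linear_combination heq
  rw [e]
  refine Ideal.sub_mem _ (Ideal.sub_mem _ ?_ ?_) hr
  · rw [Ideal.neg_mem_iff, pow_succ]
    exact Ideal.mul_mem_mul hAp (Ideal.mul_mem_right _ _ hx)
  · refine Ideal.mul_mem_right _ _ ?_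
    have h6 := Ideal.mul_mem_mul hAp (Ideal.pow_mem_pow hx (p - 1))
    rw [← pow_add] at h6
    exact Ideal.pow_le_pow_right (by omega) h6

lemma rel2 {R : Type} [CommRing R] (I : Ideal R) {p : ℕ} (hp : p.Prime) {b : ℕ} (hb : 1 ≤ b)
    {x y : R} (hx : x ∈ I) (hy : y ∈ I) (h : (x + 1) ^ (p ^ b) = 1) (h' : (y + 1) ^ (p ^ b) = 1) :
    (p : R) ^ (b - 1) * (x ^ p * y - x * y ^ p) ∈ I ^ (p + 2) := by
  have h1 := Ideal.mul_mem_mul (rel1 I hp hb hx h) hy
  have h2 := Ideal.mul_mem_mul (rel1 I hp hb hy h') hx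
  rw [← pow_succ] at h1 h2
  have h3 := Ideal.sub_mem _ h1 h2
  convert h3 using 1
  ring

/-! ### cyclic groups -/

/-- the graded pieces for a cyclic group -/
theorem gr_cyc' {A : Type} [CommRing A] [IsDomain A] {p f j : ℕ} (hp : p.Prime)
    (hp0 : (p : A) ≠ 0) (hj : 1 ≤ j) (n : ℤ)
    (h : (n : MonoidAlgebra A (Multiplicative (ZMod (p ^ f)))) *
      tt A (Multiplicative.ofAdd (1 : ZMod (p ^ f))) ^ j ∈
        Aug A (Multiplicative (ZMod (p ^ f))) ^ (j + 1)) :
    ∃ b : A, (n : A) = (p : A) ^ f * b := by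
  classical
  have hN : NeZero (p ^ f) := ⟨(pow_pos hp.pos f).ne'⟩
  set W : Polynomial A := (Polynomial.X + 1) ^ (p ^ f) - 1 with hW
  have hu : (Ideal.Quotient.mk (Ideal.span {W}) (Polynomial.X + 1)) ^ (p ^ f) = 1 := by
    rw [← map_pow, ← sub_eq_zero, ← map_one (Ideal.Quotient.mk _), ← map_sub,
      Ideal.Quotient.eq_zero_iff_mem]
    exact Ideal.mem_span_singleton_self _
  have h1 := gr_abs (A := A) (B := Polynomial A ⧸ Ideal.span {W}) (Ideal.Quotient.mk _ Polynomial.X)
    (Units.ofPowEqOne (Ideal.Quotient.mk _ (Polynomial.X + 1)) (p ^ f) hu hN.ne)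
    (by rw [Units.val_ofPowEqOne, map_add, map_one]) (Units.pow_ofPowEqOne _ _) j n h
  obtain ⟨c, hc⟩ := Ideal.mem_span_singleton'.1 h1
  obtain ⟨g, rfl⟩ := Ideal.Quotient.mk_surjective c
  have h2 : g * Polynomial.X ^ (j + 1) - (n : Polynomial A) * Polynomial.X ^ j ∈
      Ideal.span {W} := by
    rw [← Ideal.Quotient.eq_zero_iff_mem, map_sub, map_mul, map_mul, map_pow, map_pow, map_intCast,
      hc, sub_self]
  obtain ⟨w, hw⟩ := Ideal.mem_span_singleton'.1 h2
  -- the factor `X`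
  have hX : (Polynomial.X : Polynomial A) ∣ W := by
    rw [Polynomial.X_dvd_iff, hW, Polynomial.coeff_sub, Polynomial.coeff_X_add_one_pow,
      Polynomial.coeff_one]
    simp
  obtain ⟨Φ, hΦ⟩ := hX
  have hΦ0 : Φ.coeff 0 = ((p ^ f : ℕ) : A) := by
    have h3 : W.coeff 1 = ((p ^ f : ℕ) : A) := by
      rw [hW, Polynomial.coeff_sub, Polynomial.coeff_X_add_one_pow, Polynomial.coeff_one,
        if_neg (by norm_num), sub_zero, Nat.choose_one_right]
    rw [hΦ] at h3
    have h3' := Polynomial.coeff_X_mul Φ 0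
    rw [zero_add] at h3'
    rw [← h3', h3]
  have hne : ((p ^ f : ℕ) : A) ≠ 0 := by
    push_cast
    exact pow_ne_zero _ hp0
  obtain ⟨i, rfl⟩ : ∃ i, j = i + 1 := ⟨j - 1, by omega⟩
  have h4 : Polynomial.X ^ i * (g * Polynomial.X - (n : Polynomial A)) = Φ * w := by
    have h5 : (Polynomial.X : Polynomial A) *
        (Polynomial.X ^ i * (g * Polynomial.X - (n : Polynomial A))) =
        Polynomial.X * (Φ * w) := by
      calc (Polynomial.X : Polynomial A) *
          (Polynomial.X ^ i * (g * Polynomial.X - (n : Polynomial A))) =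
          g * Polynomial.X ^ (i + 1 + 1) - (n : Polynomial A) * Polynomial.X ^ (i + 1) := by ring
        _ = w * W := hw.symm
        _ = _ := by rw [hΦ]; ring
    exact mul_left_cancel₀ Polynomial.X_ne_zero h5
  have h6 : ¬ (Polynomial.X : Polynomial A) ∣ Φ := by
    rw [Polynomial.X_dvd_iff, hΦ0]
    exact hne
  have h7 : (Polynomial.X : Polynomial A) ^ i ∣ w :=
    Polynomial.prime_X.pow_dvd_of_dvd_mul_left i h6 ⟨_, h4.symm⟩
  obtain ⟨w', rfl⟩ := h7
  have h8 : g * Polynomial.X - (n : Polynomial A) = Φ * w' := by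
    have h9 : (Polynomial.X : Polynomial A) ^ i * (g * Polynomial.X - (n : Polynomial A)) =
        Polynomial.X ^ i * (Φ * w') := by
      rw [h4]
      ring
    exact mul_left_cancel₀ (pow_ne_zero _ Polynomial.X_ne_zero) h9
  have h10 := congrArg (fun q : Polynomial A => q.coeff 0) h8
  simp only [Polynomial.coeff_sub, Polynomial.mul_coeff_zero, Polynomial.coeff_X_zero, mul_zero,
    zero_sub] at h10
  have h11 : (n : Polynomial A).coeff 0 = (n : A) := by
    rw [← Polynomial.C_eq_intCast, Polynomial.coeff_C_zero]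
  rw [h11, hΦ0] at h10
  refine ⟨-w'.coeff 0, ?_⟩
  push_cast at h10
  linear_combination -h10

end Pool.Agent.K9h97.MTP
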