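import Pool.Agent.K9h97.MTP.Poly
import Pool.Agent.K9h97.MTP.Rel

/-!
Homogeneous integral polynomials of degree at most `p + 1` with values divisible by powers of `p`: all
powers, and weights.
-/

set_option autoImplicit false
set_option linter.unusedSectionVars false

namespace Pool.Agent.K9h97.MTP

open Finset Pool.Agent.X252.MT

section poly

variable {ι : Type} [Fintype ι] [DecidableEq ι]

/-- the value at a unit vector -/
lemma eval_unit {P : MvPolynomial ι ℤ} {k : ℕ} (hP : P.IsHomogeneous k) (i : ι) :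
    MvPolynomial.eval (fun l => (((if l = i then 1 else 0 : ℕ)) : ℤ)) P =
      P.coeff (Finsupp.single i k) := by
  rw [MvPolynomial.eval_eq']
  by_cases h0 : P.coeff (Finsupp.single i k) = 0
  · rw [h0]
    apply Finset.sum_eq_zero
    intro d hd
    have hd0 := MvPolynomial.mem_support_iff.1 hd
    have hex : ∃ l, l ≠ i ∧ d l ≠ 0 := by
      by_contra hc
      push Not at hc
      apply hd0
      have : d = Finsupp.single i k := by
        have hs := deg_eq hP hd0
        rw [← Finset.add_sum_erase univ _ (mem_univ i), Finset.sum_eq_zero (s := univ.erase i)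
          (fun l hl => hc l (ne_of_mem_erase hl)), add_zero] at hs
        ext l
        by_cases hl : l = i
        · rw [hl, hs, Finsupp.single_eq_same]
        · rw [Finsupp.single_eq_of_ne hl, hc l hl]
      rw [this]
      exact h0
    obtain ⟨l, hl, hdl⟩ := hex
    rw [Finset.prod_eq_zero (mem_univ l), mul_zero]
    rw [if_neg hl, Nat.cast_zero, zero_pow hdl]
  · rw [Finset.sum_eq_single (Finsupp.single i k)]
    · rw [Finset.prod_eq_one, mul_one]
      intro l _
      by_cases hl : l = i
      · rw [if_pos hl]; simp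
      · rw [Finsupp.single_eq_of_ne hl, pow_zero]
    · intro d hd hne
      have hd0 := MvPolynomial.mem_support_iff.1 hd
      have hex : ∃ l, l ≠ i ∧ d l ≠ 0 := by
        by_contra hc
        push Not at hc
        apply hne
        have hs := deg_eq hP hd0
        rw [← Finset.add_sum_erase univ _ (mem_univ i), Finset.sum_eq_zero (s := univ.erase i)
          (fun l hl => hc l (ne_of_mem_erase hl)), add_zero] at hs
        ext l
        by_cases hl : l = i
        · rw [hl, hs, Finsupp.single_eq_same]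
        · rw [Finsupp.single_eq_of_ne hl, hc l hl]
      obtain ⟨l, hl, hdl⟩ := hex
      rw [Finset.prod_eq_zero (mem_univ l), mul_zero]
      rw [if_neg hl, Nat.cast_zero, zero_pow hdl]
    · intro h
      exact absurd (MvPolynomial.mem_support_iff.2 h0) h

/-- the value at `e_i + p e_j` -/
lemma eval_two {p : ℕ} (hp2 : 2 ≤ p) {P : MvPolynomial ι ℤ} (hP : P.IsHomogeneous (p + 1)) {i j : ι}
    (hij : i ≠ j) (f : ℕ) (h1 : (p : ℤ) ^ f ∣ P.coeff (Finsupp.single i (p + 1)))
    (h2 : ∀ d : ι →₀ ℕ, (∀ l, l ≠ i → l ≠ j → d l = 0) → 2 ≤ d j →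
      (p : ℤ) ^ f ∣ (p : ℤ) ^ (d j) * P.coeff d)
    (h3 : (p : ℤ) ^ f ∣ MvPolynomial.eval
      (fun l => (((if l = i then 1 else if l = j then p else 0 : ℕ)) : ℤ)) P) :
    (p : ℤ) ^ f ∣ (p : ℤ) * P.coeff (bd p i j) := by
  by_cases h0 : P.coeff (bd p i j) = 0
  · rw [h0, mul_zero]; exact dvd_zero _
  rw [MvPolynomial.eval_eq', ← Finset.add_sum_erase _ _ (MvPolynomial.mem_support_iff.2 h0)] at h3
  have hval : ∀ d : ι →₀ ℕ, (∀ l, l ≠ i → l ≠ j → d l = 0) →
      ∏ l, ((((if l = i then 1 else if l = j then p else 0 : ℕ)) : ℤ)) ^ d l = (p : ℤ) ^ d j := by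
    intro d hd
    rw [Finset.prod_eq_single j]
    · rw [if_neg hij.symm, if_pos rfl]
    · intro l _ hl
      by_cases hli : l = i
      · rw [if_pos hli]; simp
      · rw [hd l hli hl, pow_zero]
    · intro h; exact absurd (mem_univ j) h
  have h4 : (p : ℤ) ^ f ∣ ∑ d ∈ P.support.erase (bd p i j), P.coeff d *
      ∏ l, ((((if l = i then 1 else if l = j then p else 0 : ℕ)) : ℤ)) ^ d l := by
    apply Finset.dvd_sum
    intro d hd
    rw [mem_erase] at hd
    have hd0 := MvPolynomial.mem_support_iff.1 hd.2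
    by_cases hs : ∀ l, l ≠ i → l ≠ j → d l = 0
    · rw [hval d hs]
      have hsum : d i + d j = p + 1 := by
        have := deg_eq hP hd0
        rw [← Finset.add_sum_erase univ _ (mem_univ i),
          ← Finset.add_sum_erase (univ.erase i) _ (mem_erase.2 ⟨hij.symm, mem_univ j⟩),
          Finset.sum_eq_zero (s := (univ.erase i).erase j), add_zero] at this
        · exact this
        · intro l hl
          rw [mem_erase, mem_erase] at hl
          exact hs l hl.2.1 hl.1
      rcases Nat.lt_or_ge (d j) 2 with h5 | h5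
      · have h6 : d j = 0 := by
          by_contra hc
          apply hd.1
          have : d j = 1 := by omega
          exact eq_bd (by rw [deg_eq hP hd0]) hij (by omega) (by omega)
        have h7 : d = Finsupp.single i (p + 1) := by
          ext l
          by_cases hl : l = i
          · rw [hl, Finsupp.single_eq_same]; omega
          · rw [Finsupp.single_eq_of_ne hl]
            by_cases hlj : l = j
            · rw [hlj, h6]
            · exact hs l hl hlj
        rw [h7]
        exact Dvd.dvd.mul_right h1 _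
      · rw [mul_comm]
        exact h2 d hs h5
    · push Not at hs
      obtain ⟨l, hl, hl', hdl⟩ := hs
      rw [Finset.prod_eq_zero (mem_univ l), mul_zero]
      · exact dvd_zero _
      · rw [if_neg hl, if_neg hl', Nat.cast_zero, zero_pow hdl]
  have h5 := (dvd_add_left h4).1 h3
  rw [hval _ (fun l hl hl' => bd_other hl hl'), bd_right hij, pow_one, mul_comm] at h5
  exact h5

/-- all powers of `p` -/
lemma stepB {p : ℕ} (hp : p.Prime) : ∀ (b : ℕ) {P : MvPolynomial ι ℤ} {k : ℕ},
    P.IsHomogeneous k → k ≤ p + 1 →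
    (∀ a : ι → ℕ, (p : ℤ) ^ (b + 1) ∣ MvPolynomial.eval (fun i => (a i : ℤ)) P) →
    (∀ d, (∀ i j, i ≠ j → d ≠ bd p i j) → (p : ℤ) ^ (b + 1) ∣ P.coeff d) ∧
    (∀ d, (p : ℤ) ^ b ∣ P.coeff d) ∧
    ∀ i j, i ≠ j → (p : ℤ) ^ (b + 1) ∣ P.coeff (bd p i j) + P.coeff (bd p j i) := by
  intro b
  induction b with
  | zero =>
    intro P k hP hk h
    obtain ⟨h1, h2⟩ := step1 hp hP hk (fun a => by simpa using h a)
    refine ⟨fun d hd => by simpa using h1 d hd, fun d => by simp, fun i j hij => by
      simpa using h2 i j hij⟩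
  | succ b ih =>
    intro P k hP hk h
    have hp2 := hp.two_le
    have hp0 : (p : ℤ) ≠ 0 := by exact_mod_cast hp.ne_zero
    have hpd : ∀ m n : ℕ, m ≤ n → (p : ℤ) ^ m ∣ (p : ℤ) ^ n := fun m n h => pow_dvd_pow _ h
    obtain ⟨h1, -⟩ := step1 hp hP hk (fun a =>
      (dvd_pow_self (p : ℤ) (Nat.succ_ne_zero (b + 1))).trans (h a))
    have hall : ∀ d, (p : ℤ) ∣ P.coeff d := by
      intro d
      by_cases hd : ∀ i j, i ≠ j → d ≠ bd p i j
      · exact h1 d hd
      · push Not at hd
        obtain ⟨i, j, hij, rfl⟩ := hd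
        by_cases hk2 : k = p + 1
        swap
        · have h0 : P.coeff (bd p i j) = 0 := by
            by_contra h0
            exact hk2 (by rw [← deg_eq hP h0, bd_sum])
          rw [h0]; exact dvd_zero _
        subst hk2
        have h3 := eval_two hp2 hP hij 2 (by
            rw [← eval_unit hP i]
            exact (hpd 2 (b + 1 + 1) (by omega)).trans (h _))
          (fun d _ hd => Dvd.dvd.mul_right (hpd 2 _ hd) _)
          ((hpd 2 (b + 1 + 1) (by omega)).trans (h _))
        rw [pow_two] at h3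
        exact (mul_dvd_mul_iff_left hp0).1 h3
    have hC : MvPolynomial.C (p : ℤ) ∣ P := by
      rw [MvPolynomial.C_dvd_iff_dvd_coeff]
      exact hall
    obtain ⟨Q, hQ⟩ := hC
    have hco : ∀ d, P.coeff d = p * Q.coeff d := fun d => by rw [hQ, MvPolynomial.coeff_C_mul]
    have hQh : Q.IsHomogeneous k := by
      intro d hd
      exact hP (by rw [hco]; exact mul_ne_zero hp0 hd)
    obtain ⟨h3, h4, h5⟩ := ih hQh hk (fun a => by
      have h6 := h a
      rw [hQ, map_mul, MvPolynomial.eval_C, pow_succ'] at h6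
      exact (mul_dvd_mul_iff_left hp0).1 h6)
    refine ⟨fun d hd => ?_, fun d => ?_, fun i j hij => ?_⟩
    · rw [hco, pow_succ']
      exact mul_dvd_mul_left _ (h3 d hd)
    · rw [hco, pow_succ']
      exact mul_dvd_mul_left _ (h4 d)
    · rw [hco, hco, ← mul_add, pow_succ']
      exact mul_dvd_mul_left _ (h5 i j hij)

/-- restriction to some of the variables -/
lemma restr (S : ι → Prop) [DecidablePred S] (P : MvPolynomial ι ℤ) :
    ∃ Q : MvPolynomial ι ℤ,
      (∀ c, Q.coeff c = if (∀ i, ¬ S i → c i = 0) then P.coeff c else 0) ∧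
      ∀ a : ι → ℕ, MvPolynomial.eval (fun i => (a i : ℤ)) Q =
        MvPolynomial.eval (fun i => (((if S i then a i else 0 : ℕ)) : ℤ)) P := by
  classical
  let Q : MvPolynomial ι ℤ := ∑ c ∈ P.support.filter (fun c => ∀ i, ¬ S i → c i = 0),
    MvPolynomial.monomial c (P.coeff c)
  refine ⟨Q, ?_, ?_⟩
  · intro c
    simp only [Q, MvPolynomial.coeff_sum, MvPolynomial.coeff_monomial]
    rw [Finset.sum_ite_eq' (P.support.filter (fun c => ∀ i, ¬ S i → c i = 0)) c
      (fun c => P.coeff c)]
    by_cases h1 : ∀ i, ¬ S i → c i = 0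
    · rw [if_pos h1]
      by_cases h2 : c ∈ P.support
      · rw [if_pos (Finset.mem_filter.2 ⟨h2, h1⟩)]
      · rw [if_neg (fun h3 => h2 (Finset.mem_filter.1 h3).1)]
        exact (MvPolynomial.notMem_support_iff.1 h2).symm
    · rw [if_neg h1, if_neg (fun h3 => h1 (Finset.mem_filter.1 h3).2)]
  · intro a
    simp only [Q, map_sum, MvPolynomial.eval_monomial]
    rw [MvPolynomial.eval_eq', Finset.sum_filter]
    refine Finset.sum_congr rfl fun c _ => ?_
    rw [Finsupp.prod_fintype _ _ (fun i => by simp)]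
    split_ifs with h5
    · congr 1
      refine Finset.prod_congr rfl fun i _ => ?_
      by_cases h6 : S i
      · rw [if_pos h6]
      · rw [h5 i h6, pow_zero, pow_zero]
    · push Not at h5
      obtain ⟨i, h6, h7⟩ := h5
      rw [Finset.prod_eq_zero (Finset.mem_univ i), mul_zero]
      rw [if_neg h6, Nat.cast_zero, zero_pow h7]

/-- one level -/
lemma level {p : ℕ} (hp : p.Prime) (e : ι → ℕ) {P : MvPolynomial ι ℤ} {k : ℕ}
    (hP : P.IsHomogeneous k) (hk : k ≤ p + 1) (b : ℕ)
    (key : ∀ a : ι → ℕ, (∀ i, p ^ (b + 1) ∣ p ^ (e i) * a i) →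
      (p : ℤ) ^ (b + 1) ∣ MvPolynomial.eval (fun i => (a i : ℤ)) P) :
    (∀ d, (∀ i, d i ≠ 0 → b + 1 ≤ e i) → (∀ i j, i ≠ j → d ≠ bd p i j) →
      (p : ℤ) ^ (b + 1) ∣ P.coeff d) ∧
    (∀ d, (∀ i, d i ≠ 0 → b + 1 ≤ e i) → (p : ℤ) ^ b ∣ P.coeff d) ∧
    ∀ i j, i ≠ j → b + 1 ≤ e i → b + 1 ≤ e j →
      (p : ℤ) ^ (b + 1) ∣ P.coeff (bd p i j) + P.coeff (bd p j i) := by
  classical
  obtain ⟨Q, hQ1, hQ2⟩ := restr (fun i => b + 1 ≤ e i) P
  have hQh : Q.IsHomogeneous k := by
    intro d hd
    apply hP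
    intro h
    apply hd
    rw [hQ1, h, ite_self]
  obtain ⟨h1, h2, h3⟩ := stepB hp b hQh hk (fun a => by
    rw [hQ2]
    refine key _ fun i => ?_
    by_cases hi : b + 1 ≤ e i
    · exact Dvd.dvd.mul_right (pow_dvd_pow p hi) _
    · rw [if_neg hi, mul_zero]
      exact dvd_zero _)
  have hsup : ∀ d : ι →₀ ℕ, (∀ i, d i ≠ 0 → b + 1 ≤ e i) → Q.coeff d = P.coeff d := by
    intro d hd
    rw [hQ1, if_pos]
    intro i hi
    by_contra hc
    exact hi (hd i hc)
  have hb : ∀ i j : ι, b + 1 ≤ e i → b + 1 ≤ e j → ∀ l, bd p i j l ≠ 0 → b + 1 ≤ e l := by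
    intro i j hi hj l hl
    by_cases hli : l = i
    · rw [hli]; exact hi
    · by_cases hlj : l = j
      · rw [hlj]; exact hj
      · exact absurd (bd_other hli hlj) hl
  refine ⟨fun d hd hn => ?_, fun d hd => ?_, fun i j hij hi hj => ?_⟩
  · rw [← hsup d hd]; exact h1 d hn
  · rw [← hsup d hd]; exact h2 d
  · rw [← hsup _ (hb i j hi hj), ← hsup _ (hb j i hj hi)]
    exact h3 i j hij

/-- **the coefficients** -/
lemma claimA {p : ℕ} (hp : p.Prime) (e : ι → ℕ) (E : ℕ) (heE : ∀ i, e i ≤ E)
    {P : MvPolynomial ι ℤ} {k : ℕ} (hP : P.IsHomogeneous k) (hk : k ≤ p + 1)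
    (key : ∀ f ≤ E, ∀ a : ι → ℕ, (∀ i, p ^ f ∣ p ^ (e i) * a i) →
      (p : ℤ) ^ f ∣ MvPolynomial.eval (fun i => (a i : ℤ)) P) :
    (∀ (d : ι →₀ ℕ) (i₀ : ι), d i₀ ≠ 0 → (∀ i, d i ≠ 0 → e i₀ ≤ e i) →
      (∀ i j, i ≠ j → d = bd p i j → e i ≠ e j) → (p : ℤ) ^ e i₀ ∣ P.coeff d) ∧
    ∀ i j, i ≠ j → e i = e j → ∃ c c' : ℤ, P.coeff (bd p i j) = (p : ℤ) ^ (e i - 1) * c ∧
      P.coeff (bd p i j) + P.coeff (bd p j i) = (p : ℤ) ^ (e i) * c' := by
  have hp2 := hp.two_le
  have hp0 : (p : ℤ) ≠ 0 := by exact_mod_cast hp.ne_zero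
  -- the mixed case
  have hG : ∀ i j, i ≠ j → e j < e i → (p : ℤ) ^ e j ∣ P.coeff (bd p i j) := by
    intro i j hij hlt
    rcases Nat.eq_zero_or_pos (e j) with h0 | h0
    · rw [h0, pow_zero]; exact one_dvd _
    by_cases hk2 : k = p + 1
    swap
    · have h0 : P.coeff (bd p i j) = 0 := by
        by_contra h0
        exact hk2 (by rw [← deg_eq hP h0, bd_sum])
      rw [h0]; exact dvd_zero _
    subst hk2
    obtain ⟨b, hb⟩ : ∃ b, e j = b + 1 := ⟨e j - 1, by omega⟩
    obtain ⟨-, h2, -⟩ := level hp e hP hk b (fun a ha => key (b + 1) (by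
      have := heE j
      omega) a ha)
    have hle : b + 2 ≤ E := by
      have := heE i
      omega
    have h3 := eval_two hp2 hP hij (b + 2) (by
        rw [← eval_unit hP i]
        refine key (b + 2) hle _ fun l => ?_
        by_cases hl : l = i
        · rw [if_pos hl, hl, mul_one]
          exact pow_dvd_pow p (by omega)
        · rw [if_neg hl, mul_zero]
          exact dvd_zero _)
      (fun d hd hdj => by
        have h4 := h2 d (fun l hl => by
          by_cases hli : l = i
          · rw [hli]; omega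
          · by_cases hlj : l = j
            · rw [hlj]; omega
            · exact absurd (hd l hli hlj) hl)
        have h5 : (p : ℤ) ^ (b + 2) = (p : ℤ) ^ 2 * (p : ℤ) ^ b := by
          rw [← pow_add]; congr 1; omega
        rw [h5]
        exact mul_dvd_mul (pow_dvd_pow _ hdj) h4)
      (key (b + 2) hle _ fun l => by
        by_cases hl : l = i
        · rw [if_pos hl, hl, mul_one]
          exact pow_dvd_pow p (by omega)
        · by_cases hl' : l = j
          · rw [if_neg hl, if_pos hl', hl', hb, ← pow_succ]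
          · rw [if_neg hl, if_neg hl', mul_zero]
            exact dvd_zero _)
    rw [show b + 2 = b + 1 + 1 by omega, pow_succ', hb.symm] at h3
    exact (mul_dvd_mul_iff_left hp0).1 h3
  constructor
  · intro d i₀ hi0 hmin hnb
    rcases Nat.eq_zero_or_pos (e i₀) with h0 | h0
    · rw [h0, pow_zero]; exact one_dvd _
    obtain ⟨b, hb⟩ : ∃ b, e i₀ = b + 1 := ⟨e i₀ - 1, by omega⟩
    obtain ⟨h1, h2, h3⟩ := level hp e hP hk b (fun a ha => key (b + 1) (by
      have := heE i₀
      omega) a ha)
    by_cases hbad : ∀ i j, i ≠ j → d ≠ bd p i j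
    · rw [hb]
      exact h1 d (fun i hi => by rw [← hb]; exact hmin i hi) hbad
    · push Not at hbad
      obtain ⟨i, j, hij, rfl⟩ := hbad
      have hne := hnb i j hij rfl
      have hdi : bd p i j i ≠ 0 := by rw [bd_self hij]; omega
      have hdj : bd p i j j ≠ 0 := by rw [bd_right hij]; omega
      have hmi := hmin i hdi
      have hmj := hmin j hdj
      have hi0' : i₀ = i ∨ i₀ = j := by
        by_contra hc
        push Not at hc
        exact hi0 (bd_other hc.1 hc.2)
      rcases Nat.lt_or_ge (e j) (e i) with hlt | hge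
      · have : e i₀ = e j := by
          rcases hi0' with h | h
          · rw [h] at hmj
            omega
          · rw [h]
        rw [this]
        exact hG i j hij hlt
      · have hlt : e i < e j := lt_of_le_of_ne hge hne
        have he0 : e i₀ = e i := by
          rcases hi0' with h | h
          · rw [h]
          · rw [h] at hmi
            omega
        have h4 := h3 i j hij (by omega) (by omega)
        have h5 := hG j i hij.symm hlt
        rw [he0]
        rw [← hb, he0] at h4
        exact (dvd_add_left h5).1 h4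
  · intro i j hij he
    rcases Nat.eq_zero_or_pos (e i) with h0 | h0
    · exact ⟨P.coeff (bd p i j), P.coeff (bd p i j) + P.coeff (bd p j i), by rw [h0]; simp,
        by rw [h0]; simp⟩
    obtain ⟨b, hb⟩ : ∃ b, e i = b + 1 := ⟨e i - 1, by omega⟩
    obtain ⟨-, h2, h3⟩ := level hp e hP hk b (fun a ha => key (b + 1) (by
      have := heE i
      omega) a ha)
    obtain ⟨c, hc⟩ := h2 (bd p i j) (fun l hl => by
      by_cases hli : l = i
      · rw [hli]; omega
      · by_cases hlj : l = j
        · rw [hlj]; omega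
        · exact absurd (bd_other hli hlj) hl)
    obtain ⟨c', hc'⟩ := h3 i j hij (by omega) (by omega)
    refine ⟨c, c', ?_, ?_⟩
    · rw [hc, hb, Nat.add_sub_cancel]
    · rw [hc', hb]

end poly

end Pool.Agent.K9h97.MTP
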