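import Pool.Agent.K9h97.MTP.Rel
import Pool.Agent.K9h97.MTP.Poly2
import Pool.Agent.X252.MTD
import Pool.Agent.X252.MTG

/-!
Powers of the augmentation ideal of the group ring of a finite abelian `p`-group: the `k`-th power,
`k ≤ p + 2`, is detected by the cyclic quotients.
-/

set_option autoImplicit false

namespace Pool.Agent.K9h97.MTP

open Finset Pool.Agent.X252.MT

section ring

variable {R : Type} [CommRing R] {ι : Type} [Fintype ι] [DecidableEq ι]

lemma mono_mem' (I : Ideal R) (T : ι → R) (hT : ∀ i, T i ∈ I) {n : ℕ} {i0 : ι}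
    (h : (n : R) * T i0 ∈ I ^ 2) (d : ι →₀ ℕ) (hd : d i0 ≠ 0) {k : ℕ} (hk : ∑ i, d i = k) :
    (n : R) * ∏ i, T i ^ d i ∈ I ^ (k + 1) := by
  have h14 : d i0 + ∑ i ∈ Finset.univ.erase i0, d i = ∑ i, d i :=
    Finset.add_sum_erase Finset.univ (fun i => d i) (Finset.mem_univ i0)
  have h9 : ∏ i, T i ^ d i = T i0 * (T i0 ^ (d i0 - 1) * ∏ i ∈ Finset.univ.erase i0, T i ^ d i) := by
    rw [← Finset.mul_prod_erase Finset.univ _ (Finset.mem_univ i0), ← mul_assoc]
    congr 1
    rw [← pow_succ', Nat.sub_add_cancel (Nat.pos_of_ne_zero hd)]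
  have h10 : T i0 ^ (d i0 - 1) * ∏ i ∈ Finset.univ.erase i0, T i ^ d i ∈ I ^ (k - 1) := by
    have h11 : ∏ i ∈ Finset.univ.erase i0, T i ^ d i ∈ ∏ i ∈ Finset.univ.erase i0, I ^ d i :=
      Ideal.prod_mem_prod fun i _ => Ideal.pow_mem_pow (hT i) _
    rw [Finset.prod_pow_eq_pow_sum] at h11
    have h12 := Ideal.mul_mem_mul (Ideal.pow_mem_pow (hT i0) (d i0 - 1)) h11
    rw [← pow_add] at h12
    have h13 : d i0 - 1 + ∑ i ∈ Finset.univ.erase i0, d i = k - 1 := by omega
    rwa [h13] at h12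
  have h16 := Ideal.mul_mem_mul h h10
  rw [← pow_add, show 2 + (k - 1) = k + 1 by omega] at h16
  rw [h9, ← mul_assoc]
  exact h16

lemma bd_prod {p : ℕ} (T : ι → R) {i j : ι} (hij : i ≠ j) :
    ∏ l, T l ^ bd p i j l = T i ^ p * T j := by
  rw [← Finset.mul_prod_erase Finset.univ _ (Finset.mem_univ i),
    ← Finset.mul_prod_erase (Finset.univ.erase i) _
      (Finset.mem_erase.2 ⟨hij.symm, Finset.mem_univ j⟩), bd_self hij, bd_right hij, pow_one,
    Finset.prod_eq_one, mul_one]
  intro l hl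
  rw [Finset.mem_erase, Finset.mem_erase] at hl
  rw [bd_other hl.2.1 hl.1, pow_zero]

lemma pair_mem (I : Ideal R) {p : ℕ} (hp : p.Prime) {x y : R} (hx : x ∈ I) (hy : y ∈ I) {m : ℕ}
    (h1 : (x + 1) ^ p ^ m = 1) (h1' : (y + 1) ^ p ^ m = 1)
    (h2 : ((p ^ m : ℕ) : R) * x ∈ I ^ 2) {u v c c' : ℤ}
    (hu : u = (p : ℤ) ^ (m - 1) * c) (huv : u + v = (p : ℤ) ^ m * c') :
    (u : R) * (x ^ p * y) + (v : R) * (y ^ p * x) ∈ I ^ (p + 2) := by
  rcases Nat.eq_zero_or_pos m with h0 | h0
  · subst h0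
    have hx0 : x = 0 := by simpa using h1
    have hy0 : y = 0 := by simpa using h1'
    rw [hx0, hy0]
    simp
  · have h3 := Ideal.mul_mem_left _ (c : R) (rel2 I hp h0 hx hy h1 h1')
    have h4 := Ideal.mul_mem_left _ (c' : R) (Ideal.mul_mem_mul h2 (Ideal.pow_mem_pow hy p))
    rw [← pow_add, show 2 + p = p + 2 by ring] at h4
    have h5 := Ideal.add_mem _ h3 h4
    convert h5 using 1
    have h6 : (u : R) = (p : R) ^ (m - 1) * c := by rw [hu]; push_cast; ring
    have h7 : (v : R) = (p : R) ^ m * c' - u := by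
      have : (v : ℤ) = (p : ℤ) ^ m * c' - u := by rw [← huv]; ring
      rw [this]; push_cast; ring
    rw [h7]
    push_cast
    have h8 : (c : R) * ((p : R) ^ (m - 1) * (x ^ p * y - x * y ^ p)) =
        (u : R) * (x ^ p * y - x * y ^ p) := by rw [h6]; ring
    rw [h8]
    ring

lemma pev_mem (I : Ideal R) {p : ℕ} (hp : p.Prime) (T : ι → R) (hT : ∀ i, T i ∈ I) (e : ι → ℕ)
    (h1 : ∀ i, (T i + 1) ^ p ^ e i = 1) (h2 : ∀ i, ((p ^ e i : ℕ) : R) * T i ∈ I ^ 2)
    {P : MvPolynomial ι ℤ} {k : ℕ} (hP : P.IsHomogeneous k) (hk1 : 1 ≤ k)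
    (hA : ∀ (d : ι →₀ ℕ) (i₀ : ι), d i₀ ≠ 0 → (∀ i, d i ≠ 0 → e i₀ ≤ e i) →
      (∀ i j, i ≠ j → d = bd p i j → e i ≠ e j) → (p : ℤ) ^ e i₀ ∣ P.coeff d)
    (hB : ∀ i j, i ≠ j → e i = e j → ∃ c c' : ℤ, P.coeff (bd p i j) = (p : ℤ) ^ (e i - 1) * c ∧
      P.coeff (bd p i j) + P.coeff (bd p j i) = (p : ℤ) ^ (e i) * c') :
    pev T P ∈ I ^ (k + 1) := by
  classical
  have hp2 := hp.two_le
  let s : Finset (ι × ι) := Finset.univ.filter fun x => x.1 ≠ x.2 ∧ e x.1 = e x.2
  let B : Finset (ι →₀ ℕ) := s.image fun x => bd p x.1 x.2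
  let f : (ι →₀ ℕ) → R := fun d => ((P.coeff d : ℤ) : R) * ∏ i, T i ^ d i
  have hpev : pev T P = ∑ d ∈ P.support, f d := by
    rw [pev, MvPolynomial.eval₂_eq']
    rfl
  have h3 : ∑ d ∈ P.support, f d = ∑ d ∈ P.support ∪ B, f d := by
    refine Finset.sum_subset Finset.subset_union_left fun d _ hd => ?_
    have : P.coeff d = 0 := MvPolynomial.notMem_support_iff.1 hd
    show ((P.coeff d : ℤ) : R) * _ = 0
    rw [this, Int.cast_zero, zero_mul]
  rw [hpev, h3, ← Finset.sum_sdiff (Finset.subset_union_right : B ⊆ P.support ∪ B)]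
  refine Ideal.add_mem _ (Ideal.sum_mem _ fun d hd => ?_) ?_
  · rw [Finset.mem_sdiff] at hd
    by_cases hd0 : P.coeff d = 0
    · show ((P.coeff d : ℤ) : R) * _ ∈ _
      rw [hd0, Int.cast_zero, zero_mul]
      exact Ideal.zero_mem _
    have hsum : ∑ i, d i = k := deg_eq hP hd0
    have hne' : (Finset.univ.filter fun i => d i ≠ 0).Nonempty := by
      by_contra hcon
      rw [Finset.not_nonempty_iff_eq_empty] at hcon
      have : ∑ i, d i = 0 := by
        refine Finset.sum_eq_zero fun i _ => ?_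
        by_contra h7
        have h8 : i ∈ (Finset.univ.filter fun i => d i ≠ 0) :=
          Finset.mem_filter.2 ⟨Finset.mem_univ _, h7⟩
        rw [hcon] at h8
        exact absurd h8 (Finset.notMem_empty _)
      omega
    obtain ⟨i0, hi0, hmin⟩ := Finset.exists_min_image _ e hne'
    have hi0' : d i0 ≠ 0 := (Finset.mem_filter.1 hi0).2
    obtain ⟨c, hc⟩ := hA d i0 hi0' (fun i hi => hmin i (Finset.mem_filter.2
      ⟨Finset.mem_univ _, hi⟩)) (fun i j hij hdij he => hd.2 (Finset.mem_image.2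
        ⟨(i, j), Finset.mem_filter.2 ⟨Finset.mem_univ _, hij, he⟩, hdij.symm⟩))
    show ((P.coeff d : ℤ) : R) * _ ∈ _
    have h5 := Ideal.mul_mem_left _ (c : R) (mono_mem' I T hT (h2 i0) d hi0' hsum)
    convert h5 using 1
    rw [hc]
    push_cast
    ring
  · rw [Finset.sum_image (fun x hx y hy hxy => ?_)]
    swap
    · have hx' := (Finset.mem_filter.1 hx).2
      have hy' := (Finset.mem_filter.1 hy).2
      obtain ⟨h4, h5⟩ := bd_inj hp2 hx'.1 hy'.1 hxy
      exact Prod.ext h4 h5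
    by_cases hk : k = p + 1
    · subst hk
      rw [← Ideal.Quotient.eq_zero_iff_mem, map_sum]
      refine Finset.sum_involution (fun x _ => (x.2, x.1)) (fun x hx => ?_) (fun x hx _ => ?_)
        (fun x hx => ?_) (fun x _ => rfl)
      · have hx' := (Finset.mem_filter.1 hx).2
        rw [← map_add, Ideal.Quotient.eq_zero_iff_mem]
        obtain ⟨c, c', hc, hc'⟩ := hB x.1 x.2 hx'.1 hx'.2
        show ((P.coeff (bd p x.1 x.2) : ℤ) : R) * (∏ l, T l ^ bd p x.1 x.2 l) +
          ((P.coeff (bd p x.2 x.1) : ℤ) : R) * (∏ l, T l ^ bd p x.2 x.1 l) ∈ _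
        rw [bd_prod T hx'.1, bd_prod T hx'.1.symm]
        refine pair_mem I hp (hT _) (hT _) (m := e x.1) (h1 _) ?_ (h2 _) hc hc'
        rw [hx'.2]
        exact h1 _
      · have hx' := (Finset.mem_filter.1 hx).2
        intro hc
        exact hx'.1 (congrArg Prod.snd hc)
      · have hx' := (Finset.mem_filter.1 hx).2
        exact Finset.mem_filter.2 ⟨Finset.mem_univ _, hx'.1.symm, hx'.2.symm⟩
    · refine Ideal.sum_mem _ fun x _ => ?_
      have h0 : P.coeff (bd p x.1 x.2) = 0 := by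
        by_contra h0
        exact hk (by rw [← deg_eq hP h0, bd_sum])
      show ((P.coeff (bd p x.1 x.2) : ℤ) : R) * _ ∈ _
      rw [h0, Int.cast_zero, zero_mul]
      exact Ideal.zero_mem _

end ring

section det

variable {A : Type} [CommRing A]

theorem detect_pi' [IsDomain A] {ι : Type} [Fintype ι] {p : ℕ} (hp : p.Prime) (hA : Good A p)
    (e : ι → ℕ) (E : ℕ) (heE : ∀ i, e i ≤ E)
    {k : ℕ} (hk : k ≤ p + 2) (z : MonoidAlgebra A ((i : ι) → Multiplicative (ZMod (p ^ e i))))
    (h : ∀ f ≤ E, ∀ (φ : ((i : ι) → Multiplicative (ZMod (p ^ e i))) →*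
      Multiplicative (ZMod (p ^ f))), mp A φ z ∈ Aug A _ ^ k) : z ∈ Aug A _ ^ k := by
  classical
  induction k with
  | zero => simp
  | succ k ih =>
    have hz : z ∈ Aug A ((i : ι) → Multiplicative (ZMod (p ^ e i))) ^ k :=
      ih (by omega) fun f hf φ => Ideal.pow_le_pow_right (Nat.le_succ k) (h f hf φ)
    rcases Nat.eq_zero_or_pos k with hk0 | hk0
    · subst hk0
      rw [zero_add, pow_one]
      have h1 := h 0 (Nat.zero_le E) 1
      rw [zero_add, pow_one, mem_aug_iff] at h1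
      rw [mem_aug_iff, ← h1]
      exact (eps_mp _ z).symm
    · have hne : ∀ m : ℕ, NeZero (p ^ m) := fun m => ⟨(pow_pos hp.pos m).ne'⟩
      let g : ι → ((i : ι) → Multiplicative (ZMod (p ^ e i))) := gs fun i => p ^ e i
      have hg : Gens g := by
        intro x
        refine ⟨fun i => (Multiplicative.toAdd (x i)).val, ?_⟩
        have h1 : ∀ i, g i ^ (Multiplicative.toAdd (x i)).val = Pi.mulSingle i (x i) := by
          intro i
          show gs (fun i => p ^ e i) i ^ _ = _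
          rw [gs, ← Pi.mulSingle_pow, ← ofAdd_nsmul]
          simp
        simp only [h1]
        exact (Finset.univ_prod_mulSingle x).symm
      have hE : ∀ x : (i : ι) → Multiplicative (ZMod (p ^ e i)), x ^ (p ^ ∑ i, e i) = 1 := by
        intro x
        funext i
        obtain ⟨c, hc⟩ := pow_dvd_pow p (Finset.single_le_sum (fun i _ => Nat.zero_le (e i))
          (Finset.mem_univ i))
        rw [Pi.pow_apply, hc, pow_mul]
        have h1 : x i ^ (p ^ e i) = 1 := by
          rw [← toAdd_eq_zero, toAdd_pow]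
          simp
        rw [h1, one_pow]
        rfl
      have hgi : ∀ i, g i ^ (p ^ e i) = 1 := by
        intro i
        show gs (fun i => p ^ e i) i ^ _ = _
        rw [gs, ← Pi.mulSingle_pow, ← ofAdd_nsmul]
        simp
      obtain ⟨P, hP, hPz⟩ := lead hg hE (hA.app _) hk0 hz
      -- the divisibility of the values
      have key : ∀ f ≤ E, ∀ (a : ι → ℕ), (∀ i, p ^ f ∣ p ^ (e i) * a i) →
          ((p : ℤ) ^ f) ∣ MvPolynomial.eval (fun i => (a i : ℤ)) P := by
        intro f hf a ha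
        let red : (i : ι) → (Multiplicative (ZMod (p ^ e i)) →* Multiplicative (ZMod (p ^ f))) :=
          fun i => AddMonoidHom.toMultiplicative
              (ZMod.lift (p ^ e i) ⟨zmultiplesHom (ZMod (p ^ f)) (a i : ZMod (p ^ f)), by
                rw [zmultiplesHom_apply, natCast_zsmul, nsmul_eq_mul, ← Nat.cast_mul,
                  ZMod.natCast_eq_zero_iff]
                exact ha i⟩)
        let φ : ((i : ι) → Multiplicative (ZMod (p ^ e i))) →* Multiplicative (ZMod (p ^ f)) :=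
          ∏ i, (red i).comp (Pi.evalMonoidHom _ i)
        have hφ : ∀ j, φ (g j) = (Multiplicative.ofAdd 1) ^ a j := by
          intro j
          show (∏ i, (red i).comp (Pi.evalMonoidHom _ i)) (g j) = _
          rw [MonoidHom.finsetProd_apply, Finset.prod_eq_single j]
          · show red j (gs (fun i => p ^ e i) j j) = _
            rw [gs, Pi.mulSingle_eq_same]
            show Multiplicative.ofAdd (ZMod.lift (p ^ e j) _ (1 : ZMod (p ^ e j))) = _
            have h5 := ZMod.lift_coe (p ^ e j) ⟨zmultiplesHom (ZMod (p ^ f)) (a j : ZMod (p ^ f)), by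
                rw [zmultiplesHom_apply, natCast_zsmul, nsmul_eq_mul, ← Nat.cast_mul,
                  ZMod.natCast_eq_zero_iff]
                exact ha j⟩ 1
            rw [Int.cast_one] at h5
            rw [h5, ← ofAdd_nsmul]
            simp
          · intro i _ hij
            show red i (gs (fun i => p ^ e i) j i) = 1
            rw [gs, Pi.mulSingle_eq_of_ne hij, map_one]
          · intro h5
            exact absurd (Finset.mem_univ j) h5
        have h6 := lead_eval φ a hφ hP hPz (h f hf φ)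
        exact hA.dvd f _ (gr_cyc' hp (p_ne hp hA) hk0 _ h6)
      obtain ⟨hcA, hcB⟩ := claimA hp e E heE hP (by omega) key
      have hterm : pev (fun i => tt A (g i)) P ∈
          Aug A ((i : ι) → Multiplicative (ZMod (p ^ e i))) ^ (k + 1) := by
        have h8 : ∀ i, (tt A (g i) + 1) ^ p ^ e i = 1 := by
          intro i
          have h7 : tt A (g i) + 1 = MonoidAlgebra.of A _ (g i) := by
            unfold tt
            exact sub_add_cancel _ _
          rw [h7, ← map_pow, hgi i, map_one]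
        have h9 : ∀ i, ((p ^ e i : ℕ) : MonoidAlgebra A
            ((i : ι) → Multiplicative (ZMod (p ^ e i)))) * tt A (g i) ∈
            Aug A ((i : ι) → Multiplicative (ZMod (p ^ e i))) ^ 2 := fun i => nat_mul_tt (hgi i)
        exact pev_mem (Aug A ((i : ι) → Multiplicative (ZMod (p ^ e i)))) hp
          (fun i => tt A (g i)) (fun i => tt_mem _) e h8 h9 hP hk0 hcA hcB
      have h18 := Ideal.add_mem _ hPz hterm
      convert h18 using 1
      ring

theorem detect' [IsDomain A] {G : Type} [CommGroup G] [Finite G] {p : ℕ} (hp : p.Prime)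
    (hA : Good A p) (E : ℕ) (hG : ∀ g : G, g ^ p ^ E = 1) {k : ℕ} (hk : k ≤ p + 2)
    (z : MonoidAlgebra A G)
    (h : ∀ f ≤ E, ∀ (φ : G →* Multiplicative (ZMod (p ^ f))), mp A φ z ∈ Aug A _ ^ k) :
    z ∈ Aug A G ^ k := by
  classical
  obtain ⟨ι, hι, n, hn, ⟨D⟩⟩ := CommGroup.equiv_prod_multiplicative_zmod_of_finite G
  have h1 : ∀ i, ∃ e, e ≤ E ∧ n i = p ^ e := by
    intro i
    have hm := hG (D.symm (gs n i))
    have h2 : gs n i ^ p ^ E = 1 := by
      have h3 := congrArg D hm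
      rwa [map_pow, MulEquiv.apply_symm_apply, map_one] at h3
    have h4 := congrFun h2 i
    rw [Pi.pow_apply, gs, Pi.mulSingle_eq_same, Pi.one_apply, ← toAdd_eq_zero, toAdd_pow,
      toAdd_ofAdd, nsmul_eq_mul, mul_one, ZMod.natCast_eq_zero_iff] at h4
    obtain ⟨e, he', he⟩ := (Nat.dvd_prime_pow hp).1 h4
    exact ⟨e, he', he⟩
  choose e heE he using h1
  obtain rfl : n = fun i => p ^ e i := funext he
  have h5 : mp A D.toMonoidHom z ∈ Aug A ((i : ι) → Multiplicative (ZMod (p ^ e i))) ^ k := by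
    refine detect_pi' hp hA e E heE hk _ fun f hf φ => ?_
    rw [mp_mp]
    exact h f hf _
  have h6 := mp_mem (A := A) D.symm.toMonoidHom h5
  rw [mp_mp] at h6
  have h7 : D.symm.toMonoidHom.comp D.toMonoidHom = MonoidHom.id G := by
    ext g
    simp
  rw [h7] at h6
  have h8 : mp A (MonoidHom.id G) z = z := by
    unfold mp
    rw [MonoidAlgebra.mapDomainAlgHom_id]
    rfl
  rwa [h8] at h6

/-- **detection on the cyclic subgroups of `X`** -/
theorem detectX2 [IsDomain A] {X : Type} [CommGroup X] [Finite X] {p : ℕ} (hp : p.Prime)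
    (hA : Good A p) (hX : ∀ x : X, ∃ n, x ^ p ^ n = 1) {k : ℕ} (hk : k ≤ p + 2)
    (z : MonoidAlgebra A (X →* ℂˣ))
    (h : ∀ χ : X, ∃ (C : Type) (_ : CommGroup C) (i : C →* X), Function.Injective i ∧
      χ ∈ i.range ∧ mp A (res i) z ∈ Aug A _ ^ k) : z ∈ Aug A (X →* ℂˣ) ^ k := by
  have hfin := fin_dual X
  have : ∃ n, ∀ x : X, x ^ p ^ n = 1 := by
    have hF := Fintype.ofFinite X
    choose n hn using hX
    refine ⟨∑ x, n x, fun x => ?_⟩
    obtain ⟨c, hc⟩ := pow_dvd_pow p (Finset.single_le_sum (fun i _ => Nat.zero_le (n i))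
        (Finset.mem_univ x))
    rw [hc, pow_mul, hn, one_pow]
  obtain ⟨n, hn⟩ := this
  refine detect' hp hA n (fun σ => ?_) hk z fun f _ φ => ?_
  · ext x
    rw [MonoidHom.pow_apply, ← map_pow, hn, map_one]
    rfl
  · have hN : NeZero (p ^ f) := ⟨(pow_pos hp.pos f).ne'⟩
    obtain ⟨χ, hχ⟩ := factor φ
    obtain ⟨C, hC, i, hi, hc, hm⟩ := h χ
    obtain ⟨φ', rfl⟩ := hχ C i hi hc
    rw [← mp_mp]
    exact mp_mem _ hm

end det

end Pool.Agent.K9h97.MTP
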