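import Pool.Agent.K9h97.MTP.Detect

/-!
Powers of the augmentation ideal of the group ring of a finite abelian `p`-group: the `k`-th power,
`k ≤ p + m`, is detected by the homomorphisms to the products of at most `m` cyclic groups.
-/

set_option autoImplicit false

namespace Pool.Agent.K9h97.MTP

open Finset Pool.Agent.X252.MT

section part

variable {ι : Type} [Fintype ι] [DecidableEq ι]

/-- the terms with the variables in `T` exactly -/
noncomputable def part (T : Finset ι) (P : MvPolynomial ι ℤ) : MvPolynomial ι ℤ :=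
  ∑ c ∈ P.support.filter (fun c => c.support = T), MvPolynomial.monomial c (P.coeff c)

omit [Fintype ι] in
lemma part_coeff (T : Finset ι) (P : MvPolynomial ι ℤ) (d : ι →₀ ℕ) :
    (part T P).coeff d = if d.support = T then P.coeff d else 0 := by
  unfold part
  simp only [MvPolynomial.coeff_sum, MvPolynomial.coeff_monomial]
  rw [Finset.sum_ite_eq' (P.support.filter (fun c => c.support = T)) d (fun c => P.coeff c)]
  by_cases h1 : d.support = T
  · rw [if_pos h1]
    by_cases h2 : d ∈ P.support
    · rw [if_pos (Finset.mem_filter.2 ⟨h2, h1⟩)]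
    · rw [if_neg (fun h3 => h2 (Finset.mem_filter.1 h3).1)]
      exact (MvPolynomial.notMem_support_iff.1 h2).symm
  · rw [if_neg h1, if_neg (fun h3 : d ∈ P.support.filter (fun c => c.support = T) =>
      h1 (Finset.mem_filter.1 h3).2)]

omit [DecidableEq ι] in
lemma pev_eq {R : Type} [CommRing R] (x : ι → R) (P : MvPolynomial ι ℤ) :
    pev x P = ∑ c ∈ P.support, ((P.coeff c : ℤ) : R) * ∏ i, x i ^ c i := by
  rw [pev, MvPolynomial.eval₂_eq']
  rfl

lemma pev_part {R : Type} [CommRing R] (x : ι → R) (T : Finset ι) (P : MvPolynomial ι ℤ) :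
    pev x (part T P) = ∑ c ∈ P.support.filter (fun c => c.support = T),
      ((P.coeff c : ℤ) : R) * ∏ i, x i ^ c i := by
  unfold part
  rw [pev_sum]
  refine Finset.sum_congr rfl fun c _ => ?_
  rw [pev, MvPolynomial.eval₂_monomial, Finsupp.prod_fintype _ _ (fun i => by simp)]
  rfl

lemma pev_sub {R : Type} [CommRing R] (x : ι → R) (S : Finset ι) (P : MvPolynomial ι ℤ) :
    pev (fun i => if i ∈ S then x i else 0) P = ∑ T ∈ S.powerset, pev x (part T P) := by
  have h1 : ∀ T ∈ S.powerset, pev x (part T P) = ∑ c ∈ P.support,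
      if c.support = T then ((P.coeff c : ℤ) : R) * ∏ i, x i ^ c i else 0 := by
    intro T _
    rw [pev_part, Finset.sum_filter]
  rw [Finset.sum_congr rfl h1, Finset.sum_comm, pev_eq]
  refine Finset.sum_congr rfl fun c _ => ?_
  rw [Finset.sum_ite_eq S.powerset c.support]
  by_cases h2 : c.support ⊆ S
  · rw [if_pos (Finset.mem_powerset.2 h2)]
    congr 1
    refine Finset.prod_congr rfl fun i _ => ?_
    by_cases h3 : i ∈ S
    · rw [if_pos h3]
    · have h4 : c i = 0 := by
        by_contra h5
        exact h3 (h2 (Finsupp.mem_support_iff.2 h5))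
      rw [h4, pow_zero, pow_zero]
  · rw [if_neg (fun h3 => h2 (Finset.mem_powerset.1 h3))]
    obtain ⟨i, hi, hiS⟩ := Finset.not_subset.1 h2
    rw [Finset.prod_eq_zero (Finset.mem_univ i), mul_zero]
    rw [if_neg hiS, zero_pow (Finsupp.mem_support_iff.1 hi)]

lemma part_mem {R : Type} [CommRing R] (J : Ideal R) (x : ι → R) (P : MvPolynomial ι ℤ) :
    ∀ T : Finset ι, (∀ S ⊆ T, pev (fun i => if i ∈ S then x i else 0) P ∈ J) →
      pev x (part T P) ∈ J := by
  intro T
  induction T using Finset.strongInduction with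
  | H T ih =>
    intro h
    have h1 := h T (Finset.Subset.refl T)
    rw [pev_sub, ← Finset.add_sum_erase _ _ (Finset.mem_powerset_self T)] at h1
    refine (Ideal.add_mem_iff_left _ (Ideal.sum_mem _ fun S hS => ?_)).1 h1
    rw [Finset.mem_erase, Finset.mem_powerset] at hS
    exact ih S (Finset.ssubset_iff_subset_ne.2 ⟨hS.2, hS.1⟩) fun S' hS' => h S' (hS'.trans hS.2)

/-- the coefficients of the terms with many variables -/
lemma part_dvd {p : ℕ} (hp : p.Prime) (e : ι → ℕ) {P : MvPolynomial ι ℤ} {k : ℕ}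
    (hP : P.IsHomogeneous k) (E : ℕ) (heE : ∀ i, e i ≤ E)
    (key : ∀ f ≤ E, ∀ a : ι → ℕ, (∀ i, p ^ f ∣ p ^ (e i) * a i) →
      (p : ℤ) ^ f ∣ MvPolynomial.eval (fun i => (a i : ℤ)) P)
    (c : ι →₀ ℕ) (hc : k + 2 ≤ p + c.support.card) (i₀ : ι)
    (hmin : ∀ i, c i ≠ 0 → e i₀ ≤ e i) : (p : ℤ) ^ e i₀ ∣ P.coeff c := by
  have h1 := coeff_dvd' hp (e i₀) (part c.support P) (fun d hd i => ?_) (fun i => e i₀ ≤ e i)
    (fun a ha => ?_) c (fun i hi => ?_)
  · rwa [part_coeff, if_pos rfl] at h1
  · rw [MvPolynomial.mem_support_iff, part_coeff] at hd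
    have h2 : d.support = c.support := by
      by_contra h
      rw [if_neg h] at hd
      exact hd rfl
    rw [if_pos h2] at hd
    have h3 := deg_eq hP hd
    by_cases h4 : d i = 0
    · rw [h4]; exact hp.pos
    · have h5 : d i + ∑ j ∈ c.support.erase i, d j = k := by
        rw [← h3, ← h2, Finset.add_sum_erase _ _ (Finsupp.mem_support_iff.2 h4)]
        exact Finset.sum_subset (Finset.subset_univ _) fun j _ hj => by
          by_contra h6
          exact hj (Finsupp.mem_support_iff.2 h6)
      have h6 : (c.support.erase i).card ≤ ∑ j ∈ c.support.erase i, d j := by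
        rw [Finset.card_eq_sum_ones]
        refine Finset.sum_le_sum fun j hj => ?_
        rw [← h2] at hj
        have := Finsupp.mem_support_iff.1 (Finset.mem_erase.1 hj).2
        omega
      have h7 : (c.support.erase i).card = c.support.card - 1 :=
        Finset.card_erase_of_mem (by rw [← h2]; exact Finsupp.mem_support_iff.2 h4)
      have h8 : 0 < c.support.card :=
        Finset.card_pos.2 ⟨i, by rw [← h2]; exact Finsupp.mem_support_iff.2 h4⟩
      omega
  · have h2 := part_mem (Ideal.span {(p : ℤ) ^ e i₀}) (fun i => (a i : ℤ)) P c.support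
      (fun S _ => ?_)
    · rwa [pev_int, Ideal.mem_span_singleton] at h2
    · rw [Ideal.mem_span_singleton]
      have h3 := key (e i₀) (heE i₀) (fun i => if i ∈ S then a i else 0) (fun i => ?_)
      · have h5 : (fun i => if i ∈ S then ((a i : ℕ) : ℤ) else 0) =
            fun i => (((if i ∈ S then a i else 0 : ℕ)) : ℤ) := by
          funext i
          split_ifs <;> simp
        rw [h5, pev_int]
        exact h3
      · by_cases h4 : e i₀ ≤ e i
        · exact Dvd.dvd.mul_right (pow_dvd_pow p h4) _
        · have h5 : (if i ∈ S then a i else 0) = 0 := by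
            rw [ha i h4, ite_self]
          rw [h5, mul_zero]
          exact dvd_zero _
  · by_contra h2
    exact hi (hmin i h2)

end part

section det

variable {A : Type} [CommRing A]

lemma key_lemma [IsDomain A] {ι : Type} [Fintype ι] [DecidableEq ι] {p : ℕ} (hp : p.Prime)
    (hA : Good A p) (e : ι → ℕ) {k : ℕ} (hk0 : 0 < k)
    (z : MonoidAlgebra A ((i : ι) → Multiplicative (ZMod (p ^ e i))))
    {P : MvPolynomial ι ℤ} (hP : P.IsHomogeneous k)
    (hPz : z - pev (fun i => tt A (gs (fun i => p ^ e i) i)) P ∈ Aug A _ ^ (k + 1)) (f : ℕ)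
    (h : ∀ (φ : ((i : ι) → Multiplicative (ZMod (p ^ e i))) →* Multiplicative (ZMod (p ^ f))),
      mp A φ z ∈ Aug A _ ^ (k + 1)) (a : ι → ℕ) (ha : ∀ i, p ^ f ∣ p ^ (e i) * a i) :
    (p : ℤ) ^ f ∣ MvPolynomial.eval (fun i => (a i : ℤ)) P := by
  let g : ι → ((i : ι) → Multiplicative (ZMod (p ^ e i))) := gs fun i => p ^ e i
  let red : (i : ι) → (Multiplicative (ZMod (p ^ e i)) →* Multiplicative (ZMod (p ^ f))) :=
    fun i => AddMonoidHom.toMultiplicative
        (ZMod.lift (p ^ e i) ⟨zmultiplesHom (ZMod (p ^ f)) (a i : ZMod (p ^ f)), by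
          rw [zmultiplesHom_apply, natCast_zsmul, nsmul_eq_mul, ← Nat.cast_mul,
            ZMod.natCast_eq_zero_iff]
          exact ha i⟩)
  let φ : ((i : ι) → Multiplicative (ZMod (p ^ e i))) →* Multiplicative (ZMod (p ^ f)) :=
    ∏ i, (red i).comp (Pi.evalMonoidHom _ i)
  have hφ : ∀ j, φ (g j) = (Multiplicative.ofAdd 1) ^ a j := by
    intro j
    show (∏ i, (red i).comp (Pi.evalMonoidHom _ i)) (g j) = _
    rw [MonoidHom.finsetProd_apply, Finset.prod_eq_single j]
    · show red j (gs (fun i => p ^ e i) j j) = _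
      rw [gs, Pi.mulSingle_eq_same]
      show Multiplicative.ofAdd (ZMod.lift (p ^ e j) _ (1 : ZMod (p ^ e j))) = _
      have h5 := ZMod.lift_coe (p ^ e j) ⟨zmultiplesHom (ZMod (p ^ f)) (a j : ZMod (p ^ f)), by
          rw [zmultiplesHom_apply, natCast_zsmul, nsmul_eq_mul, ← Nat.cast_mul,
            ZMod.natCast_eq_zero_iff]
          exact ha j⟩ 1
      rw [Int.cast_one] at h5
      rw [h5, ← ofAdd_nsmul]
      simp
    · intro i _ hij
      show red i (gs (fun i => p ^ e i) j i) = 1
      rw [gs, Pi.mulSingle_eq_of_ne hij, map_one]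
    · intro h5
      exact absurd (Finset.mem_univ j) h5
  have h6 := lead_eval φ a hφ hP hPz (h φ)
  exact hA.dvd f _ (gr_cyc' hp (p_ne hp hA) hk0 _ h6)

/-- the projection to the coordinates in `T` -/
def prj {ι : Type} (N : ι → ℕ) (T : Finset ι) :
    ((i : ι) → Multiplicative (ZMod (N i))) →* ((i : T) → Multiplicative (ZMod (N i))) where
  toFun x i := x i
  map_one' := rfl
  map_mul' _ _ := rfl

/-- the inclusion of the coordinates in `T` -/
def inc {ι : Type} [DecidableEq ι] (N : ι → ℕ) (T : Finset ι) :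
    ((i : T) → Multiplicative (ZMod (N i))) →* ((i : ι) → Multiplicative (ZMod (N i))) where
  toFun x i := if h : i ∈ T then x ⟨i, h⟩ else 1
  map_one' := by
    funext i
    by_cases h : i ∈ T
    · simp [h]
    · simp [h]
  map_mul' x y := by
    funext i
    by_cases h : i ∈ T
    · simp [h]
    · simp [h]

lemma inc_prj {ι : Type} [DecidableEq ι] (N : ι → ℕ) (T : Finset ι) (j : ι) :
    inc N T (prj N T (gs N j)) = if j ∈ T then gs N j else 1 := by
  funext i
  show (if h : i ∈ T then gs N j i else 1) = _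
  by_cases hj : j ∈ T
  · rw [if_pos hj]
    by_cases hi : i ∈ T
    · rw [dif_pos hi]
    · rw [dif_neg hi]
      have hij : i ≠ j := fun h => hi (h ▸ hj)
      rw [gs, Pi.mulSingle_eq_of_ne hij]
  · rw [if_neg hj]
    by_cases hi : i ∈ T
    · rw [dif_pos hi]
      have hij : i ≠ j := fun h => hj (h ▸ hi)
      rw [gs, Pi.mulSingle_eq_of_ne hij]
      rfl
    · rw [dif_neg hi]
      rfl

/-- the image of `z` under the homomorphisms of `G` to the products of at most `m` cyclic `p`-groups
is in the `k`-th power of the augmentation ideal -/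
def FewZero (p m k : ℕ) {G : Type} [CommGroup G] (z : MonoidAlgebra A G) : Prop :=
  ∀ (κ : Type) [Fintype κ], Fintype.card κ ≤ m → ∀ (f : κ → ℕ)
    (φ : G →* ((j : κ) → Multiplicative (ZMod (p ^ f j)))), mp A φ z ∈ Aug A _ ^ k

lemma FewZero.cyc {p m k : ℕ} {G : Type} [CommGroup G] {z : MonoidAlgebra A G}
    (h : FewZero p m k z) (hm : 1 ≤ m) (f : ℕ) (φ : G →* Multiplicative (ZMod (p ^ f))) :
    mp A φ z ∈ Aug A _ ^ k := by
  have h1 := h Unit (by rw [Fintype.card_unit]; exact hm) (fun _ => f)
    (MonoidHom.pi (fun _ => φ))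
  have h2 := mp_mem (A := A) (Pi.evalMonoidHom (fun _ : Unit => Multiplicative (ZMod (p ^ f))) ()) h1
  rw [mp_mp] at h2
  exact h2

lemma FewZero.mono {p m k l : ℕ} {G : Type} [CommGroup G] {z : MonoidAlgebra A G}
    (h : FewZero p m k z) (hl : l ≤ k) : FewZero p m l z :=
  fun κ _ hκ f φ => Ideal.pow_le_pow_right hl (h κ hκ f φ)

theorem detect_pi_few [IsDomain A] {ι : Type} [Fintype ι] {p : ℕ} (hp : p.Prime) (hA : Good A p)
    (e : ι → ℕ) {k m : ℕ} (hm : 1 ≤ m) (hk : k ≤ p + m)
    (z : MonoidAlgebra A ((i : ι) → Multiplicative (ZMod (p ^ e i)))) (h : FewZero p m k z) :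
    z ∈ Aug A _ ^ k := by
  classical
  induction k with
  | zero => simp
  | succ k ih =>
    have hz : z ∈ Aug A ((i : ι) → Multiplicative (ZMod (p ^ e i))) ^ k :=
      ih (by omega) (h.mono (Nat.le_succ k))
    rcases Nat.eq_zero_or_pos k with hk0 | hk0
    · subst hk0
      rw [zero_add, pow_one]
      have h1 := h.cyc hm 0 1
      rw [zero_add, pow_one, mem_aug_iff] at h1
      rw [mem_aug_iff, ← h1]
      exact (eps_mp _ z).symm
    · have hne : ∀ m : ℕ, NeZero (p ^ m) := fun m => ⟨(pow_pos hp.pos m).ne'⟩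
      let g : ι → ((i : ι) → Multiplicative (ZMod (p ^ e i))) := gs fun i => p ^ e i
      have hg : Gens g := by
        intro x
        refine ⟨fun i => (Multiplicative.toAdd (x i)).val, ?_⟩
        have h1 : ∀ i, g i ^ (Multiplicative.toAdd (x i)).val = Pi.mulSingle i (x i) := by
          intro i
          show gs (fun i => p ^ e i) i ^ _ = _
          rw [gs, ← Pi.mulSingle_pow, ← ofAdd_nsmul]
          simp
        simp only [h1]
        exact (Finset.univ_prod_mulSingle x).symm
      have hE : ∀ x : (i : ι) → Multiplicative (ZMod (p ^ e i)), x ^ (p ^ ∑ i, e i) = 1 := by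
        intro x
        funext i
        obtain ⟨c, hc⟩ := pow_dvd_pow p (Finset.single_le_sum (fun i _ => Nat.zero_le (e i))
          (Finset.mem_univ i))
        rw [Pi.pow_apply, hc, pow_mul]
        have h1 : x i ^ (p ^ e i) = 1 := by
          rw [← toAdd_eq_zero, toAdd_pow]
          simp
        rw [h1, one_pow]
        rfl
      have hgi : ∀ i, g i ^ (p ^ e i) = 1 := by
        intro i
        show gs (fun i => p ^ e i) i ^ _ = _
        rw [gs, ← Pi.mulSingle_pow, ← ofAdd_nsmul]
        simp
      obtain ⟨P, hP, hPz⟩ := lead hg hE (hA.app _) hk0 hz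
      have key : ∀ f ≤ ∑ i, e i, ∀ a : ι → ℕ, (∀ i, p ^ f ∣ p ^ (e i) * a i) →
          (p : ℤ) ^ f ∣ MvPolynomial.eval (fun i => (a i : ℤ)) P := fun f _ a ha =>
        key_lemma hp hA e hk0 z hP hPz f (h.cyc hm f) a ha
      have hmemT : ∀ T : Finset ι, T.card ≤ m →
          pev (fun i => if i ∈ T then tt A (g i) else 0) P ∈
            Aug A ((i : ι) → Multiplicative (ZMod (p ^ e i))) ^ (k + 1) := by
        intro T hT
        have h1 := h T (by rw [Fintype.card_coe]; exact hT) (fun i => e i)
          (prj (fun i => p ^ e i) T)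
        have h2 := mp_mem (A := A) (inc (fun i => p ^ e i) T) h1
        rw [mp_mp] at h2
        have h3 := mp_mem (A := A) ((inc (fun i => p ^ e i) T).comp (prj (fun i => p ^ e i) T)) hPz
        rw [map_sub] at h3
        have h4 : mp A ((inc (fun i => p ^ e i) T).comp (prj (fun i => p ^ e i) T))
            (pev (fun i => tt A (g i)) P) = pev (fun i => if i ∈ T then tt A (g i) else 0) P := by
          have h5 := map_pev (mp A ((inc (fun i => p ^ e i) T).comp (prj (fun i => p ^ e i) T)) :
            MonoidAlgebra A ((i : ι) → Multiplicative (ZMod (p ^ e i))) →+*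
              MonoidAlgebra A ((i : ι) → Multiplicative (ZMod (p ^ e i))))
            (fun i => tt A (g i)) P
          simp only [RingHom.coe_coe] at h5
          rw [h5]
          congr 1
          funext i
          rw [mp_tt, MonoidHom.comp_apply, inc_prj]
          by_cases hi : i ∈ T
          · rw [if_pos hi, if_pos hi]
          · rw [if_neg hi, if_neg hi, tt_one]
        rw [h4] at h3
        have h6 := Ideal.sub_mem _ h2 h3
        rwa [sub_sub_cancel] at h6
      have hterm : pev (fun i => tt A (g i)) P ∈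
          Aug A ((i : ι) → Multiplicative (ZMod (p ^ e i))) ^ (k + 1) := by
        have h1 := pev_sub (fun i => tt A (g i)) Finset.univ P
        simp only [Finset.mem_univ, if_true] at h1
        rw [h1]
        refine Ideal.sum_mem _ fun T _ => ?_
        by_cases hT : T.card ≤ m
        · exact part_mem _ _ P T fun S hS => hmemT S ((Finset.card_le_card hS).trans hT)
        · rw [pev_part]
          refine Ideal.sum_mem _ fun c hc => ?_
          rw [Finset.mem_filter] at hc
          have hc0 : P.coeff c ≠ 0 := MvPolynomial.mem_support_iff.1 hc.1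
          have hsum : ∑ i, c i = k := deg_eq hP hc0
          have hne' : c.support.Nonempty := by
            rw [← Finset.card_pos, hc.2]
            omega
          obtain ⟨i0, hi0, hmin⟩ := Finset.exists_min_image _ e hne'
          obtain ⟨b, hb⟩ := part_dvd hp e hP (∑ i, e i) (fun i =>
            Finset.single_le_sum (fun i _ => Nat.zero_le (e i)) (Finset.mem_univ i)) key c
            (by rw [hc.2]; omega) i0 (fun i hi => hmin i (Finsupp.mem_support_iff.2 hi))
          have h15 : ((p ^ e i0 : ℕ) : MonoidAlgebra A _) * tt A (g i0) ∈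
              Aug A ((i : ι) → Multiplicative (ZMod (p ^ e i))) ^ 2 := nat_mul_tt (hgi i0)
          have h16 := Ideal.mul_mem_left _ ((b : ℤ) : MonoidAlgebra A _)
            (mono_mem' (Aug A ((i : ι) → Multiplicative (ZMod (p ^ e i)))) (fun i => tt A (g i))
              (fun i => tt_mem _) h15 c (Finsupp.mem_support_iff.1 hi0) hsum)
          rw [hb]
          convert h16 using 1
          push_cast
          ring
      have h18 := Ideal.add_mem _ hPz hterm
      convert h18 using 1
      ring

theorem detect_few [IsDomain A] {G : Type} [CommGroup G] [Finite G] {p : ℕ} (hp : p.Prime)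
    (hA : Good A p) (hG : ∃ E, ∀ g : G, g ^ p ^ E = 1) {k m : ℕ} (hm : 1 ≤ m) (hk : k ≤ p + m)
    (z : MonoidAlgebra A G) (h : FewZero p m k z) : z ∈ Aug A G ^ k := by
  classical
  obtain ⟨E, hG⟩ := hG
  obtain ⟨ι, hι, n, hn, ⟨D⟩⟩ := CommGroup.equiv_prod_multiplicative_zmod_of_finite G
  have h1 : ∀ i, ∃ e, n i = p ^ e := by
    intro i
    have hm := hG (D.symm (gs n i))
    have h2 : gs n i ^ p ^ E = 1 := by
      have h3 := congrArg D hm
      rwa [map_pow, MulEquiv.apply_symm_apply, map_one] at h3
    have h4 := congrFun h2 i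
    rw [Pi.pow_apply, gs, Pi.mulSingle_eq_same, Pi.one_apply, ← toAdd_eq_zero, toAdd_pow,
      toAdd_ofAdd, nsmul_eq_mul, mul_one, ZMod.natCast_eq_zero_iff] at h4
    obtain ⟨e, he', he⟩ := (Nat.dvd_prime_pow hp).1 h4
    exact ⟨e, he⟩
  choose e he using h1
  obtain rfl : n = fun i => p ^ e i := funext he
  have h5 : mp A D.toMonoidHom z ∈ Aug A ((i : ι) → Multiplicative (ZMod (p ^ e i))) ^ k := by
    refine detect_pi_few hp hA e hm hk _ fun κ _ hκ f φ => ?_
    rw [mp_mp]
    exact h κ hκ f _
  have h6 := mp_mem (A := A) D.symm.toMonoidHom h5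
  rw [mp_mp] at h6
  have h7 : D.symm.toMonoidHom.comp D.toMonoidHom = MonoidHom.id G := by
    ext g
    simp
  rw [h7] at h6
  have h8 : mp A (MonoidHom.id G) z = z := by
    unfold mp
    rw [MonoidAlgebra.mapDomainAlgHom_id]
    rfl
  rwa [h8] at h6

end det

end Pool.Agent.K9h97.MTP
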