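import Pool.Agent.K9h97.MTP.Detect
import Pool.Agent.X252.MTK

/-!
The reduction to cyclic fields of the order of vanishing statement and of the leading term formula for
the Mazur-Tate elements, up to the power `p + 2` of the augmentation ideal.
-/

set_option autoImplicit false

namespace Pool.Agent.K9h97.MTP

open Finset Pool.Agent.X252.MT

section sys

variable {W : WeierstrassCurve ℤ} {p : ℕ} {A : Type} [CommRing A] {k : ℕ}
  {z : (F : Fld W p) → MonoidAlgebra A (Du F.X)}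

/-- **cyclic fields suffice** -/
theorem sys_cyclic [IsDomain A] (hz : Sys k z) (hp : p.Prime) (hA : Good A p) (F : Fld W p)
    (hk : k ≤ p + 2)
    (h : ∀ χ (hχ : χ ∈ F.X), z (cyc F χ hχ) ∈ Aug A _ ^ k) : z F ∈ Aug A (Du F.X) ^ k := by
  have hfin := F.fin
  refine detectX2 hp hA (fun x => ?_) hk (z F) fun χ => ?_
  · obtain ⟨n, hn⟩ := F.pow x x.2
    exact ⟨n, Subtype.ext hn⟩
  · refine ⟨(cyc F χ χ.2).X, inferInstance, Subgroup.inclusion (cyc_le F χ.2),
      Subgroup.inclusion_injective _, ⟨⟨χ, Subgroup.mem_zpowers _⟩, rfl⟩, ?_⟩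
    exact hz.res (cyc_le F χ.2) (h χ χ.2)

/-- the reduction of a property of fields to the cyclic fields -/
def CyclicSuffice (P : Fld W p → Prop) (k : ℕ) : Prop :=
  (∀ F : Fld W p, IsCyclic F.X → F.T.card < k → P F) → ∀ F : Fld W p, P F

theorem sys_suffice [IsDomain A] (hz : Sys k z) (hp : p.Prime) (hA : Good A p) (hk : k ≤ p + 2) :
    CyclicSuffice (fun F : Fld W p => z F ∈ Aug A (Du F.X) ^ k) k :=
  fun h F => hz.primes F fun _ _ hc =>
    sys_cyclic hz hp hA _ hk fun _ hχ => h _ (cyc_cyclic _ hχ)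
      (lt_of_le_of_lt (cyc_card _ hχ) hc)

end sys

variable {W : WeierstrassCurve ℤ} {p : ℕ} (hp : p.Prime)

/-- **the reduction theorem** -/
theorem reduction2 {Ω : ℂ} (hΩ : Ω ≠ 0) {θ : (F : Fld W p) → MonoidAlgebra (Zp p hp) (Du F.X)}
    (hθ : ∀ F, IsTheta F Ω (θ F)) :
    (∀ k ≤ p + 2, CyclicSuffice (fun F : Fld W p => InPow k (θ F)) k) ∧
    ∀ (r : ℕ) (h : (F : Fld W p) → Fin r → Fin r → Du F.X), r ≤ p + 1 → Compat W p h →
      ∀ c : Zp p hp, CyclicSuffice (fun F : Fld W p => LT hp F (h F) c (θ F)) (r + 1) := by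
  refine ⟨fun k hk => ?_, fun r h hr hh c =>
    sys_suffice (sys_dfct hp hΩ hθ h hh c) hp (zp_good hp) (by omega)⟩
  have h1 := sys_suffice (sys_theta hp hΩ hθ k) hp (zp_good hp) hk
  have h2 : (fun F : Fld W p => mt F (θ F) ∈ Aug (Zp p hp) (Du F.X) ^ k) =
      fun F : Fld W p => InPow k (θ F) :=
    funext fun F => propext (mt_mem_iff hp F (θ F) k)
  rwa [h2] at h1

end Pool.Agent.K9h97.MTP
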