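import Pool.Agent.K9h97.MTP.Neg

/-!
The range of the powers of the augmentation ideal that are detected by the cyclic quotients.
-/

set_option autoImplicit false

namespace Pool.Agent.K9h97.MTP

open Finset Pool.Agent.X252.MT

lemma neg_two (j : ℕ) : zz 2 (j + 5) j ∉ Aug ℤ _ ^ (j + 5) := by
  intro h
  have h20 : (2 : Polynomial (ZMod (2 ^ (j + 5)))) ^ (j + 5) = 0 := by
    have h1 : ((2 ^ (j + 5) : ℕ) : Polynomial (ZMod (2 ^ (j + 5)))) = 0 := by
      rw [← Polynomial.C_eq_natCast, ZMod.natCast_self, Polynomial.C_0]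
    exact_mod_cast h1
  have h1 := zz_val Nat.prime_two (S := Polynomial (ZMod (2 ^ (j + 5)))) 2 (2 * Polynomial.X) (-2)
    (dvd_mul_right _ _) (dvd_neg.2 dvd_rfl) (n := j + 5) ?_ (by norm_num) h20 h
  · have h2 : (2 : Polynomial (ZMod (2 ^ (j + 5)))) ^ (j + 4) * (Polynomial.X ^ (j + 2) +
        Polynomial.X ^ (j + 1)) = 0 := by
      rw [← h1]
      ring
    have h3 := congrArg (fun q => Polynomial.coeff q (j + 1)) h2
    have h4 : (2 : Polynomial (ZMod (2 ^ (j + 5)))) ^ (j + 4) =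
        Polynomial.C ((2 : ZMod (2 ^ (j + 5))) ^ (j + 4)) := by
      rw [Polynomial.C_pow]
      rfl
    simp only [h4, Polynomial.coeff_C_mul, Polynomial.coeff_add, Polynomial.coeff_X_pow,
      Polynomial.coeff_zero] at h3
    rw [if_neg (by omega)] at h3
    simp only [if_true, zero_add, mul_one] at h3
    have h5 : ((2 ^ (j + 4) : ℕ) : ZMod (2 ^ (j + 5))) = 0 := by
      push_cast
      exact h3
    rw [ZMod.natCast_eq_zero_iff] at h5
    have h6 := (Nat.pow_dvd_pow_iff_le_right (by norm_num : 1 < 2)).1 h5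
    omega
  · have h2 := dvd_sub_pow_of_dvd_sub (R := Polynomial (ZMod (2 ^ (j + 5)))) (p := 2)
      (a := 2 * Polynomial.X + 1) (b := 1) ⟨Polynomial.X, by push_cast; ring⟩ (j + 5)
    obtain ⟨c, hc⟩ := h2
    rw [one_pow] at hc
    push_cast at hc
    rw [pow_succ 2 (j + 5), h20, zero_mul, zero_mul] at hc
    exact sub_eq_zero.1 hc

lemma neg_abs2 {p : ℕ} (hp : p.Prime) (hp3 : 3 ≤ p) {S : Type} [CommRing S] {t w : S} {n j k : ℕ}
    (ht : t ^ k = 0) (hn : k ≤ n) (hw3 : w ^ 3 = 0) (hpS : (p : S) = 0)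
    (h : zz p n j ∈ Aug ℤ _ ^ k) : w ^ 2 * t ^ (j + (p + 2)) = 0 := by
  have hwn : ∀ n, 3 ≤ n → w ^ n = 0 := fun n hn => pow_eq_zero_of_le hn hw3
  have h1 := zz_val hp (S := S) t t (w * t) dvd_rfl (dvd_mul_left _ _) (n := n) ?_ ?_ ht h
  · rw [mul_pow w t (p + 1), hwn (p + 1) (by omega)] at h1
    rw [← h1]
    ring
  · obtain ⟨r, hr⟩ := exists_add_pow_prime_pow_eq hp t 1 n
    rw [hr, hpS, one_pow]
    have h3 : t ^ p ^ n = 0 :=
      pow_eq_zero_of_le (hn.trans (Nat.lt_pow_self hp.one_lt).le) ht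
    rw [h3]
    ring
  · obtain ⟨r, hr⟩ := exists_add_pow_prime_eq hp (w * t) 1
    rw [hr, hpS, one_pow, mul_pow, hwn p hp3]
    ring

lemma neg_abs1 {p : ℕ} (hp : p.Prime) (hp3 : 3 ≤ p) {K : Type} [CommRing K] {v : K} {n j : ℕ}
    (hn : j + (p + 3) ≤ n) (hv3 : v ^ 3 = 0) (hpK : (p : K) = 0)
    (h : zz p n j ∈ Aug ℤ _ ^ (j + (p + 3))) : v ^ 2 = 0 := by
  have h3 := neg_abs2 hp hp3 (S := Polynomial K ⧸ Ideal.span
    {(Polynomial.X : Polynomial K) ^ (j + (p + 3))}) (t := Ideal.Quotient.mk _ Polynomial.X)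
    (w := Ideal.Quotient.mk _ (Polynomial.C v)) (k := j + (p + 3)) ?_ hn ?_ ?_ h
  · have h4 : (Ideal.Quotient.mk (Ideal.span {(Polynomial.X : Polynomial K) ^ (j + (p + 3))}))
        (Polynomial.C (v ^ 2) * Polynomial.X ^ (j + (p + 2))) = 0 := by
      rw [map_mul, Polynomial.C_pow, map_pow, map_pow]
      exact h3
    rw [Ideal.Quotient.eq_zero_iff_mem, Ideal.mem_span_singleton, Polynomial.X_pow_dvd_iff] at h4
    have h5 := h4 (j + (p + 2)) (by omega)
    rw [Polynomial.coeff_C_mul, Polynomial.coeff_X_pow, if_pos rfl, mul_one] at h5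
    exact h5
  · rw [← map_pow, Ideal.Quotient.eq_zero_iff_mem]
    exact Ideal.mem_span_singleton_self _
  · rw [← map_pow, ← Polynomial.C_pow, hv3, Polynomial.C_0, map_zero]
  · have h1 : (p : Polynomial K ⧸ Ideal.span {(Polynomial.X : Polynomial K) ^ (j + (p + 3))}) =
        Ideal.Quotient.mk _ (Polynomial.C (p : K)) := by
      rw [Polynomial.C_eq_natCast, map_natCast]
    rw [h1, hpK, Polynomial.C_0, map_zero]

lemma neg_odd {p : ℕ} (hp : p.Prime) (h2 : p ≠ 2) (j : ℕ) :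
    zz p (j + (p + 3)) j ∉ Aug ℤ _ ^ (j + (p + 3)) := by
  have hF : Fact p.Prime := ⟨hp⟩
  have hp3 : 3 ≤ p := by
    have := hp.two_le
    omega
  intro h
  have hv2 := neg_abs1 hp hp3 (K := Polynomial (ZMod p) ⧸ Ideal.span
    {(Polynomial.X : Polynomial (ZMod p)) ^ 3}) (v := Ideal.Quotient.mk _ Polynomial.X)
    le_rfl ?_ ?_ h
  · rw [← map_pow, Ideal.Quotient.eq_zero_iff_mem, Ideal.mem_span_singleton,
      Polynomial.X_pow_dvd_iff] at hv2
    have h3 := hv2 2 (by norm_num)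
    rw [Polynomial.coeff_X_pow, if_pos rfl] at h3
    exact one_ne_zero h3
  · rw [← map_pow, Ideal.Quotient.eq_zero_iff_mem]
    exact Ideal.mem_span_singleton_self _
  · have h1 : (p : Polynomial (ZMod p) ⧸ Ideal.span {(Polynomial.X : Polynomial (ZMod p)) ^ 3}) =
        Ideal.Quotient.mk _ (Polynomial.C (p : ZMod p)) := by
      rw [Polynomial.C_eq_natCast, map_natCast]
    rw [h1, ZMod.natCast_self, Polynomial.C_0, map_zero]

/-- the `k`-th power of the augmentation ideal of the integral group ring of a finite abelian `p`-group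
is detected by the homomorphisms to the cyclic `p`-groups -/
def Detected (p k : ℕ) : Prop :=
  ∀ (G : Type) [CommGroup G] [Finite G], (∀ g : G, ∃ n : ℕ, g ^ p ^ n = 1) →
    ∀ z : MonoidAlgebra ℤ G,
      (∀ (f : ℕ) (φ : G →* Multiplicative (ZMod (p ^ f))), mp ℤ φ z ∈ Aug ℤ _ ^ k) →
        z ∈ Aug ℤ G ^ k

/-- **the range of detection** -/
theorem detected_iff {p : ℕ} (hp : p.Prime) (k : ℕ) : Detected p k ↔ k ≤ p + 2 := by
  constructor
  · intro h
    by_contra hk
    obtain ⟨j, rfl⟩ : ∃ j, k = j + (p + 3) := ⟨k - (p + 3), by omega⟩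
    have hN : NeZero (p ^ (j + (p + 3))) := ⟨(pow_pos hp.pos _).ne'⟩
    have hN' : NeZero p := ⟨hp.ne_zero⟩
    have h1 := h (Multiplicative (ZMod (p ^ (j + (p + 3)))) × Multiplicative (ZMod p))
      (fun g => ⟨j + (p + 3), ?_⟩) (zz p (j + (p + 3)) j) fun f φ => zz_det hp _ j f φ
    · by_cases h2 : p = 2
      · subst h2
        exact neg_two j h1
      · exact neg_odd hp h2 j h1
    · obtain ⟨g, g'⟩ := g
      obtain ⟨m, rfl⟩ := gen_pow g
      obtain ⟨m', rfl⟩ := gen_pow g'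
      rw [Prod.pow_mk, ← pow_mul, mul_comm m, pow_mul, ofAdd_pow_card, one_pow, ← pow_mul,
        show j + (p + 3) = (j + (p + 2)) + 1 by ring, pow_succ' p (j + (p + 2)), mul_comm m',
        mul_assoc, pow_mul, ofAdd_pow_card, one_pow]
      rfl
  · intro hk G _ _ hG z h
    have : ∃ n, ∀ x : G, x ^ p ^ n = 1 := by
      have hF := Fintype.ofFinite G
      choose n hn using hG
      refine ⟨∑ x, n x, fun x => ?_⟩
      obtain ⟨c, hc⟩ := pow_dvd_pow p (Finset.single_le_sum (fun i _ => Nat.zero_le (n i))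
          (Finset.mem_univ x))
      rw [hc, pow_mul, hn, one_pow]
    obtain ⟨n, hn⟩ := this
    exact detect' hp (good_int p) n hn hk z fun f _ φ => h f φ

end Pool.Agent.K9h97.MTP
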