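import Pool.Agent.K9h97.MTP.Few
import Pool.Agent.K9h97.MTP.Fin
import Pool.Agent.K9h97.MTP.Neg2

/-!
The reduction of the order of vanishing statement and of the leading term formula for the Mazur-Tate
elements to the fields whose Galois groups have few generators.
-/

set_option autoImplicit false

namespace Pool.Agent.K9h97.MTP

open Finset Pool.Agent.X252.MT

/-- homomorphisms to products of cyclic groups factor through the restriction to a subgroup -/
lemma factor_few {X : Type} [CommGroup X] [Finite X] {κ : Type} [Fintype κ] {N : κ → ℕ}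
    [∀ j, NeZero (N j)] (φ : (X →* ℂˣ) →* ((j : κ) → Multiplicative (ZMod (N j)))) :
    ∃ χ : κ → X, ∀ (C : Type) [CommGroup C] (i : C →* X), Function.Injective i →
      (∀ j, χ j ∈ i.range) → ∃ φ' : (C →* ℂˣ) →* ((j : κ) → Multiplicative (ZMod (N j))),
        φ'.comp (res i) = φ := by
  have hne : NeZero (Monoid.exponent X) := ⟨Monoid.exponent_ne_zero_of_finite⟩
  refine ⟨fun j => CommGroup.monoidHomMonoidHomEquiv X ℂ
    ((emb (N j)).comp ((Pi.evalMonoidHom _ j).comp φ)), fun C _ i hi hc => ?_⟩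
  have hs := res_surj i hi
  have hker : (res i).ker ≤ φ.ker := by
    intro σ hσ
    rw [MonoidHom.mem_ker] at hσ ⊢
    funext j
    obtain ⟨c, hc⟩ := hc j
    apply emb_inj (N j)
    rw [Pi.one_apply, map_one]
    have h1 := CommGroup.apply_monoidHomMonoidHomEquiv (G := X) ℂ σ
      ((emb (N j)).comp ((Pi.evalMonoidHom _ j).comp φ))
    rw [MonoidHom.comp_apply] at h1
    have h3 : emb (N j) (φ σ j) = emb (N j) (((Pi.evalMonoidHom _ j).comp φ) σ) := rfl
    rw [h3, ← h1]
    have h2 := DFunLike.congr_fun hσ c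
    have h4 : σ (i c) = 1 := h2
    rw [hc] at h4
    exact h4
  refine ⟨(res i).liftOfRightInverse (Function.surjInv hs)
    (Function.rightInverse_surjInv hs) ⟨φ, hker⟩, ?_⟩
  exact MonoidHom.ext fun σ => MonoidHom.liftOfRightInverse_comp_apply (res i)
    (Function.surjInv hs) (Function.rightInverse_surjInv hs) ⟨φ, hker⟩ σ

/-- **detection on the subgroups of `X` with few generators** -/
theorem detectX_few {A : Type} [CommRing A] [IsDomain A] {X : Type} [CommGroup X] [Finite X]
    {p : ℕ} (hp : p.Prime) (hA : Good A p) (hX : ∀ x : X, ∃ n, x ^ p ^ n = 1) {k m : ℕ}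
    (hm : 1 ≤ m) (hk : k ≤ p + m) (z : MonoidAlgebra A (X →* ℂˣ))
    (h : ∀ (κ : Type) [Fintype κ], Fintype.card κ ≤ m → ∀ χ : κ → X,
      ∃ (C : Type) (_ : CommGroup C) (i : C →* X), Function.Injective i ∧
        (∀ j, χ j ∈ i.range) ∧ mp A (res i) z ∈ Aug A _ ^ k) : z ∈ Aug A (X →* ℂˣ) ^ k := by
  have hfin := fin_dual X
  have : ∃ n, ∀ x : X, x ^ p ^ n = 1 := by
    have hF := Fintype.ofFinite X
    choose n hn using hX
    refine ⟨∑ x, n x, fun x => ?_⟩
    obtain ⟨c, hc⟩ := pow_dvd_pow p (Finset.single_le_sum (fun i _ => Nat.zero_le (n i))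
        (Finset.mem_univ x))
    rw [hc, pow_mul, hn, one_pow]
  obtain ⟨n, hn⟩ := this
  refine detect_few hp hA ⟨n, fun σ => ?_⟩ hm hk z fun κ _ hκ f φ => ?_
  · ext x
    rw [MonoidHom.pow_apply, ← map_pow, hn, map_one]
    rfl
  · have hN : ∀ j, NeZero (p ^ f j) := fun j => ⟨(pow_pos hp.pos (f j)).ne'⟩
    obtain ⟨χ, hχ⟩ := factor_few φ
    obtain ⟨C, hC, i, hi, hc, hm⟩ := h κ hκ χ
    obtain ⟨φ', rfl⟩ := hχ C i hi hc
    rw [← mp_mp]
    exact mp_mem _ hm

section sys

variable {W : WeierstrassCurve ℤ} {p : ℕ} {A : Type} [CommRing A] {k : ℕ}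
  {z : (F : Fld W p) → MonoidAlgebra A (Du F.X)}

open Classical in
/-- the subfield given by a subgroup of the group of characters -/
noncomputable def sub (F : Fld W p) (C : Subgroup Fam) (hC : C ≤ F.X) : Fld W p where
  X := C
  T := F.T.filter fun q => ∃ c ∈ C, c q ≠ 1
  fin := by
    have hF := F.fin
    exact Finite.of_injective (Subgroup.inclusion hC) (Subgroup.inclusion_injective _)
  ram := by
    intro q
    rw [Finset.mem_filter]
    constructor
    · rintro ⟨-, h⟩
      exact h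
    · rintro ⟨c, hc, h⟩
      exact ⟨(F.ram q).2 ⟨c, hC hc, h⟩, c, hc, h⟩
  adm := fun q hq => F.adm q (Finset.mem_filter.1 hq).1
  pow := fun c hc => F.pow c (hC hc)

/-- the group of characters (equivalently, the Galois group) has at most `m` generators -/
def Gen (F : Fld W p) (m : ℕ) : Prop :=
  ∃ S : Finset Fam, S.card ≤ m ∧ F.X = Subgroup.closure (S : Set Fam)

/-- the reduction of a property of fields to the fields whose groups have at most `m` generators -/
def FewSuffice (P : Fld W p → Prop) (k m : ℕ) : Prop :=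
  (∀ F : Fld W p, Gen F m → F.T.card < k → P F) → ∀ F : Fld W p, P F

theorem sys_few [IsDomain A] (hz : Sys k z) (hp : p.Prime) (hA : Good A p) {m : ℕ} (hm : 1 ≤ m)
    (hk : k ≤ p + m) : FewSuffice (fun F : Fld W p => z F ∈ Aug A (Du F.X) ^ k) k m := by
  classical
  intro h F
  refine hz.primes F fun t ht hc => ?_
  have hfin := (box F t ht).fin
  refine detectX_few hp hA (fun x => ?_) hm hk (z (box F t ht)) fun κ _ hκ χ => ?_
  · obtain ⟨n, hn⟩ := (box F t ht).pow x x.2
    exact ⟨n, Subtype.ext hn⟩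
  · have hle : Subgroup.closure (((Finset.univ.image fun j => ((χ j : Fam))) : Finset Fam) :
        Set Fam) ≤ (box F t ht).X := by
      rw [Subgroup.closure_le]
      intro x hx
      rw [Finset.mem_coe, Finset.mem_image] at hx
      obtain ⟨j, -, rfl⟩ := hx
      exact (χ j).2
    refine ⟨(sub (box F t ht) _ hle).X, inferInstance, Subgroup.inclusion hle,
      Subgroup.inclusion_injective _, fun j => ⟨⟨χ j, Subgroup.subset_closure (by
        rw [Finset.mem_coe, Finset.mem_image]
        exact ⟨j, Finset.mem_univ _, rfl⟩)⟩, rfl⟩, ?_⟩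
    refine hz.res (F' := sub (box F t ht) _ hle) hle (h _ ⟨_, ?_, rfl⟩ ?_)
    · exact (Finset.card_image_le.trans (by rw [Finset.card_univ])).trans hκ
    · exact lt_of_le_of_lt (Finset.card_filter_le _ _) hc

end sys

variable {W : WeierstrassCurve ℤ} {p : ℕ} (hp : p.Prime)

/-- **the reduction theorem** -/
theorem reduction_few {Ω : ℂ} (hΩ : Ω ≠ 0)
    {θ : (F : Fld W p) → MonoidAlgebra (Zp p hp) (Du F.X)} (hθ : ∀ F, IsTheta F Ω (θ F)) (m : ℕ)
    (hm : 1 ≤ m) :
    (∀ k ≤ p + m, FewSuffice (fun F : Fld W p => InPow k (θ F)) k m) ∧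
    ∀ (r : ℕ) (h : (F : Fld W p) → Fin r → Fin r → Du F.X), r + 1 ≤ p + m → Compat W p h →
      ∀ c : Zp p hp, FewSuffice (fun F : Fld W p => LT hp F (h F) c (θ F)) (r + 1) m := by
  refine ⟨fun k hk => ?_, fun r h hr hh c =>
    sys_few (sys_dfct hp hΩ hθ h hh c) hp (zp_good hp) hm hr⟩
  have h1 := sys_few (sys_theta hp hΩ hθ k) hp (zp_good hp) hm hk
  have h2 : (fun F : Fld W p => mt F (θ F) ∈ Aug (Zp p hp) (Du F.X) ^ k) =
      fun F : Fld W p => InPow k (θ F) :=
    funext fun F => propext (mt_mem_iff hp F (θ F) k)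
  rwa [h2] at h1

/-- the `k`-th power of the augmentation ideal of the integral group ring of a finite abelian `p`-group
is detected by the homomorphisms to the products of at most `m` cyclic `p`-groups -/
def DetectedFew (p m k : ℕ) : Prop :=
  ∀ (G : Type) [CommGroup G] [Finite G], (∀ g : G, ∃ n : ℕ, g ^ p ^ n = 1) →
    ∀ z : MonoidAlgebra ℤ G,
      (∀ (κ : Type) [Fintype κ], Fintype.card κ ≤ m → ∀ (f : κ → ℕ)
        (φ : G →* ((j : κ) → Multiplicative (ZMod (p ^ f j)))), mp ℤ φ z ∈ Aug ℤ _ ^ k) →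
        z ∈ Aug ℤ G ^ k

theorem detectedFew {p : ℕ} (hp : p.Prime) {m k : ℕ} (hm : 1 ≤ m) (hk : k ≤ p + m) :
    DetectedFew p m k := by
  intro G _ _ hG z h
  have : ∃ n, ∀ x : G, x ^ p ^ n = 1 := by
    have hF := Fintype.ofFinite G
    choose n hn using hG
    refine ⟨∑ x, n x, fun x => ?_⟩
    obtain ⟨c, hc⟩ := pow_dvd_pow p (Finset.single_le_sum (fun i _ => Nat.zero_le (n i))
        (Finset.mem_univ x))
    rw [hc, pow_mul, hn, one_pow]
  exact detect_few hp (good_int p) this hm hk z h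

end Pool.Agent.K9h97.MTP
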