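import Pool.Agent.K9h97.MTP.Detect

/-!
The `k`-th power of the augmentation ideal, `k > p + 2`, is not detected by the cyclic quotients.
-/

set_option autoImplicit false

namespace Pool.Agent.K9h97.MTP

open Finset Pool.Agent.X252.MT

lemma good_int (p : ℕ) : Good ℤ p where
  app := fun e a => ⟨a, 0, by simp⟩
  dvd := fun f n h => by
    obtain ⟨b, hb⟩ := h
    exact ⟨b, by simpa using hb⟩

/-- the polynomial -/
noncomputable def PP (p j : ℕ) : MvPolynomial (Fin 2) ℤ :=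
  MvPolynomial.X 0 ^ j * (MvPolynomial.X 0 ^ p * MvPolynomial.X 1 ^ 2 -
    MvPolynomial.X 0 * MvPolynomial.X 1 ^ (p + 1))

lemma PP_hom (p j : ℕ) : (PP p j).IsHomogeneous (j + (p + 2)) := by
  unfold PP
  have hX : ∀ i : Fin 2, (MvPolynomial.X i : MvPolynomial (Fin 2) ℤ).IsHomogeneous 1 :=
    fun i => MvPolynomial.isHomogeneous_X ℤ i
  refine MvPolynomial.IsHomogeneous.mul ?_ (MvPolynomial.IsHomogeneous.sub ?_ ?_)
  · simpa using (hX 0).pow j
  · simpa using ((hX 0).pow p).mul ((hX 1).pow 2)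
  · have := (hX 0).mul ((hX 1).pow (p + 1))
    rwa [show 1 + 1 * (p + 1) = p + 2 by ring] at this

lemma PP_pev {R : Type} [CommRing R] (x : Fin 2 → R) (p j : ℕ) :
    pev x (PP p j) = x 0 ^ j * (x 0 ^ p * x 1 ^ 2 - x 0 * x 1 ^ (p + 1)) := by
  unfold pev PP
  simp

lemma PP_dvd {p : ℕ} (hp : p.Prime) (j f : ℕ) (a : Fin 2 → ℕ) (h : p ^ f ∣ a 1 * p) :
    (p : ℤ) ^ f ∣ MvPolynomial.eval (fun i => (a i : ℤ)) (PP p j) := by
  have hF : Fact p.Prime := ⟨hp⟩
  rw [← pev_int, PP_pev]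
  refine Dvd.dvd.mul_left ?_ _
  rcases Nat.lt_or_ge f 2 with hf | hf
  · have h1 : (p : ℤ) ∣ (a 0 : ℤ) ^ p * (a 1 : ℤ) ^ 2 - (a 0 : ℤ) * (a 1 : ℤ) ^ (p + 1) := by
      rw [← ZMod.intCast_zmod_eq_zero_iff_dvd _ p]
      push_cast
      rw [pow_succ (a 1 : ZMod p) p, ZMod.pow_card, ZMod.pow_card]
      ring
    refine dvd_trans ?_ h1
    calc (p : ℤ) ^ f ∣ (p : ℤ) ^ 1 := pow_dvd_pow _ (by omega)
      _ = p := pow_one _
  · obtain ⟨g, rfl⟩ : ∃ g, f = g + 1 := ⟨f - 1, by omega⟩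
    have h1 : p ^ g ∣ a 1 := by
      rw [pow_succ] at h
      exact Nat.dvd_of_mul_dvd_mul_right hp.pos h
    obtain ⟨c, hc⟩ := h1
    have h2 : (p : ℤ) ^ (g + 1) ∣ (a 1 : ℤ) ^ 2 := by
      rw [hc]
      push_cast
      rw [mul_pow, ← pow_mul]
      exact Dvd.dvd.mul_right (pow_dvd_pow _ (by omega)) _
    refine dvd_sub (Dvd.dvd.mul_left h2 _) ?_
    have h3 : (a 1 : ℤ) ^ 2 ∣ (a 1 : ℤ) ^ (p + 1) := pow_dvd_pow _ (by have := hp.two_le; omega)
    exact Dvd.dvd.mul_left (h2.trans h3) _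

/-- the generators of the product of two cyclic groups -/
def gg (p n : ℕ) : Fin 2 → Multiplicative (ZMod (p ^ n)) × Multiplicative (ZMod p) :=
  ![(Multiplicative.ofAdd 1, 1), (1, Multiplicative.ofAdd 1)]

/-- the element of the group ring -/
noncomputable def zz (p n j : ℕ) :
    MonoidAlgebra ℤ (Multiplicative (ZMod (p ^ n)) × Multiplicative (ZMod p)) :=
  pev (fun i => tt ℤ (gg p n i)) (PP p j)

lemma ofAdd_pow_card {N : ℕ} : (Multiplicative.ofAdd (1 : ZMod N)) ^ N = 1 := by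
  rw [← ofAdd_nsmul]
  simp

lemma zz_det {p : ℕ} (hp : p.Prime) (n j f : ℕ)
    (φ : Multiplicative (ZMod (p ^ n)) × Multiplicative (ZMod p) →*
      Multiplicative (ZMod (p ^ f))) : mp ℤ φ (zz p n j) ∈ Aug ℤ _ ^ (j + (p + 3)) := by
  have hN : NeZero (p ^ f) := ⟨(pow_pos hp.pos f).ne'⟩
  choose a ha using fun i => gen_pow (φ (gg p n i))
  have h1 : p ^ f ∣ a 1 * p := by
    have h2 : (gg p n 1) ^ p = 1 := by
      show ((1, Multiplicative.ofAdd (1 : ZMod p)) :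
        Multiplicative (ZMod (p ^ n)) × Multiplicative (ZMod p)) ^ p = 1
      rw [Prod.pow_mk, one_pow, ofAdd_pow_card]
      rfl
    have h3 := congrArg φ h2
    rw [map_pow, map_one, ha 1, ← pow_mul, ← toAdd_eq_zero, toAdd_pow, toAdd_ofAdd,
      nsmul_eq_mul, mul_one, ZMod.natCast_eq_zero_iff] at h3
    exact h3
  obtain ⟨c, hc⟩ := PP_dvd hp j f a h1
  have h4 : mp ℤ φ (zz p n j) = pev (fun i => tt ℤ (φ (gg p n i))) (PP p j) := by
    have h3 := map_pev (mp ℤ φ : MonoidAlgebra ℤ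
      (Multiplicative (ZMod (p ^ n)) × Multiplicative (ZMod p)) →+*
        MonoidAlgebra ℤ (Multiplicative (ZMod (p ^ f)))) (fun i => tt ℤ (gg p n i)) (PP p j)
    simp only [RingHom.coe_coe] at h3
    unfold zz
    rw [h3]
    simp only [mp_tt]
  have h5 := aeval_cong (Aug ℤ (Multiplicative (ZMod (p ^ f)))) (fun i => tt ℤ (φ (gg p n i)))
    (fun i => ((a i : ℤ) : MonoidAlgebra ℤ _) * tt ℤ (Multiplicative.ofAdd 1)) (fun i => tt_mem _)
    (fun i => Ideal.mul_mem_left _ _ (tt_mem _)) (fun i => by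
      rw [ha i]
      have := tt_pow (A := ℤ) (Multiplicative.ofAdd (1 : ZMod (p ^ f))) (a i)
      push_cast
      exact this) (PP_hom p j)
  rw [aeval_mul (fun i => (a i : ℤ)) (tt ℤ (Multiplicative.ofAdd 1)) (PP_hom p j), hc] at h5
  have h6 : ((p ^ f : ℕ) : MonoidAlgebra ℤ (Multiplicative (ZMod (p ^ f)))) *
      tt ℤ (Multiplicative.ofAdd 1) ∈ Aug ℤ (Multiplicative (ZMod (p ^ f))) ^ 2 :=
    nat_mul_tt ofAdd_pow_card
  have h7 := Ideal.mul_mem_mul h6 (Ideal.pow_mem_pow (tt_mem (A := ℤ)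
    (Multiplicative.ofAdd (1 : ZMod (p ^ f)))) (j + (p + 1)))
  rw [← pow_add, show 2 + (j + (p + 1)) = j + (p + 2) + 1 by ring] at h7
  have h8 := Ideal.add_mem _ h5 (Ideal.mul_mem_left _ ((c : ℤ) : MonoidAlgebra ℤ _) h7)
  rw [h4, show j + (p + 3) = j + (p + 2) + 1 by ring]
  convert h8 using 1
  push_cast
  ring

lemma hom_zero {G S : Type} [CommGroup G] [CommRing S] (u : G →* Sˣ) (t : S)
    (hu : ∀ g, (u g : S) - 1 ∈ Ideal.span {t}) {k : ℕ} (ht : t ^ k = 0) {z : MonoidAlgebra ℤ G}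
    (hz : z ∈ Aug ℤ G ^ k) : MonoidAlgebra.lift ℤ S G ((Units.coeHom S).comp u) z = 0 := by
  have h1 : Aug ℤ G ≤ (Ideal.span {t}).comap
      (MonoidAlgebra.lift ℤ S G ((Units.coeHom S).comp u)) := by
    unfold Aug
    rw [Ideal.span_le]
    rintro _ ⟨c, rfl⟩
    show (MonoidAlgebra.lift ℤ S G ((Units.coeHom S).comp u)) (MonoidAlgebra.of ℤ _ c - 1) ∈
      Ideal.span {t}
    rw [map_sub, map_one, MonoidAlgebra.lift_of]
    exact hu c
  have h2 := ((Ideal.pow_right_mono h1 k).trans (Ideal.le_comap_pow _ k)) hz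
  rw [Ideal.mem_comap, Ideal.span_singleton_pow, ht] at h2
  simpa using h2

lemma lift_tt {G S : Type} [CommGroup G] [CommRing S] (u : G →* Sˣ) (g : G) :
    MonoidAlgebra.lift ℤ S G ((Units.coeHom S).comp u) (tt ℤ g) = (u g : S) - 1 := by
  unfold tt
  rw [map_sub, map_one, MonoidAlgebra.lift_of]
  rfl

/-- homomorphisms from the product of two cyclic groups -/
lemma zz_val {p : ℕ} (hp : p.Prime) {S : Type} [CommRing S] (t x y : S) (hx : t ∣ x) (hy : t ∣ y)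
    {n : ℕ} (hxn : (x + 1) ^ p ^ n = 1) (hyp : (y + 1) ^ p = 1) {k : ℕ} (ht : t ^ k = 0) {j : ℕ}
    (hz : zz p n j ∈ Aug ℤ _ ^ k) : x ^ j * (x ^ p * y ^ 2 - x * y ^ (p + 1)) = 0 := by
  have hN : NeZero (p ^ n) := ⟨(pow_pos hp.pos n).ne'⟩
  have hN' : NeZero p := ⟨hp.ne_zero⟩
  let ux : Sˣ := Units.ofPowEqOne (x + 1) (p ^ n) hxn hN.ne
  let uy : Sˣ := Units.ofPowEqOne (y + 1) p hyp hN'.ne
  have hux : (ux : S) = x + 1 := Units.val_ofPowEqOne _ _ _ _
  have huy : (uy : S) = y + 1 := Units.val_ofPowEqOne _ _ _ _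
  have hux' : ux ^ p ^ n = 1 := Units.pow_ofPowEqOne _ _
  have huy' : uy ^ p = 1 := Units.pow_ofPowEqOne _ _
  let u : Multiplicative (ZMod (p ^ n)) × Multiplicative (ZMod p) →* Sˣ :=
    (zh ux hux').coprod (zh uy huy')
  have h0 : u (gg p n 0) = ux := by
    show (zh ux hux') (Multiplicative.ofAdd 1) * (zh uy huy') 1 = ux
    rw [zh_one, map_one, mul_one]
  have h1 : u (gg p n 1) = uy := by
    show (zh ux hux') 1 * (zh uy huy') (Multiplicative.ofAdd 1) = uy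
    rw [zh_one, map_one, one_mul]
  have h2 := hom_zero u t (fun g => ?_) ht hz
  · have h3 := map_pev (MonoidAlgebra.lift ℤ S _ ((Units.coeHom S).comp u) :
      MonoidAlgebra ℤ _ →+* S) (fun i => tt ℤ (gg p n i)) (PP p j)
    simp only [RingHom.coe_coe, lift_tt] at h3
    unfold zz at h2
    rw [h3, PP_pev, h0, h1, hux, huy] at h2
    simpa using h2
  · obtain ⟨g, g'⟩ := g
    obtain ⟨m, rfl⟩ := gen_pow g
    obtain ⟨m', rfl⟩ := gen_pow g'
    show (((zh ux hux') (Multiplicative.ofAdd 1 ^ m) * (zh uy huy') (Multiplicative.ofAdd 1 ^ m') :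
      Sˣ) : S) - 1 ∈ _
    rw [map_pow, map_pow, zh_one, zh_one, Units.val_mul, Units.val_pow_eq_pow_val,
      Units.val_pow_eq_pow_val, hux, huy, Ideal.mem_span_singleton]
    have h3 : t ∣ (x + 1) ^ m - 1 := by
      have h2 := sub_one_dvd_pow_sub_one (x + 1) m
      rw [add_sub_cancel_right] at h2
      exact hx.trans h2
    have h4 : t ∣ (y + 1) ^ m' - 1 := by
      have h2 := sub_one_dvd_pow_sub_one (y + 1) m'
      rw [add_sub_cancel_right] at h2
      exact hy.trans h2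
    have h5 := dvd_add (Dvd.dvd.mul_right h3 ((y + 1) ^ m')) h4
    convert h5 using 1
    ring

end Pool.Agent.K9h97.MTP
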