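import Pool.Agent.X252.MTC

/-!
Homogeneous integral polynomials of degree at most `p + 1` with values divisible by powers of `p`.
-/

set_option autoImplicit false
set_option linter.unusedSectionVars false

namespace Pool.Agent.K9h97.MTP

open Finset Pool.Agent.X252.MT

section red

/-- the reduced exponent -/
def re (p n : ℕ) : ℕ := if n = 0 then 0 else (n - 1) % (p - 1) + 1

lemma re_zero (p : ℕ) : re p 0 = 0 := rfl

lemma re_lt {p : ℕ} (hp : 2 ≤ p) (n : ℕ) : re p n ≤ p - 1 := by
  unfold re
  split_ifs with h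
  · omega
  · have := Nat.mod_lt (n - 1) (show 0 < p - 1 by omega)
    omega

lemma pow_re {p : ℕ} (hp : p.Prime) (x : ZMod p) (n : ℕ) : x ^ re p n = x ^ n := by
  have hF : Fact p.Prime := ⟨hp⟩
  unfold re
  split_ifs with h
  · rw [h]
  · by_cases hx : x = 0
    · rw [hx, zero_pow (by omega), zero_pow h]
    · have h1 := ZMod.pow_card_sub_one_eq_one hx
      have h2 : n = (n - 1) % (p - 1) + 1 + (p - 1) * ((n - 1) / (p - 1)) := by
        have := Nat.mod_add_div (n - 1) (p - 1)
        omega
      conv_rhs => rw [h2, pow_add, pow_mul, h1, one_pow, mul_one]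

/-- if `n > m` have the same reduced exponents then `m ≥ 1` and `n ≥ p` -/
lemma re_gap {p : ℕ} (hp : 2 ≤ p) {m n : ℕ} (h : re p m = re p n) (hmn : m < n) :
    1 ≤ m ∧ m + (p - 1) ≤ n := by
  unfold re at h
  have hn : n ≠ 0 := by omega
  rw [if_neg hn] at h
  by_cases hm : m = 0
  · rw [if_pos hm] at h
    omega
  · rw [if_neg hm] at h
    have h1 : (m - 1) % (p - 1) = (n - 1) % (p - 1) := by omega
    refine ⟨by omega, ?_⟩
    have h2 : (m - 1) ≡ (n - 1) [MOD (p - 1)] := h1
    have h3 := (Nat.modEq_iff_dvd' (by omega)).1 h2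
    have h4 := Nat.le_of_dvd (by omega) h3
    omega

end red

section poly

variable {ι : Type} [Fintype ι] [DecidableEq ι]

/-- the exponent of `X_i^p X_j` -/
noncomputable def bd (p : ℕ) (i j : ι) : ι →₀ ℕ := Finsupp.single i p + Finsupp.single j 1

lemma bd_self {p : ℕ} {i j : ι} (h : i ≠ j) : bd p i j i = p := by
  unfold bd
  rw [Finsupp.add_apply, Finsupp.single_eq_same, Finsupp.single_eq_of_ne h, add_zero]

lemma bd_right {p : ℕ} {i j : ι} (h : i ≠ j) : bd p i j j = 1 := by
  unfold bd
  rw [Finsupp.add_apply, Finsupp.single_eq_same, Finsupp.single_eq_of_ne h.symm, zero_add]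

lemma bd_other {p : ℕ} {i j l : ι} (h : l ≠ i) (h' : l ≠ j) : bd p i j l = 0 := by
  unfold bd
  rw [Finsupp.add_apply, Finsupp.single_eq_of_ne h, Finsupp.single_eq_of_ne h', add_zero]

lemma bd_inj {p : ℕ} (hp : 2 ≤ p) {i j i' j' : ι} (h : i ≠ j) (h' : i' ≠ j')
    (he : bd p i j = bd p i' j') : i = i' ∧ j = j' := by
  have h1 : i = i' := by
    by_contra hc
    have h2 := DFunLike.congr_fun he i
    rw [bd_self h] at h2
    by_cases h3 : i = j'
    · rw [h3, bd_right h'] at h2
      omega
    · rw [bd_other hc h3] at h2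
      omega
  refine ⟨h1, ?_⟩
  by_contra hc
  have h2 := DFunLike.congr_fun he j
  rw [bd_right h] at h2
  rw [bd_other (by rw [← h1]; exact h.symm) hc] at h2
  omega

lemma bd_sum {p : ℕ} (i j : ι) : ∑ l, bd p i j l = p + 1 := by
  unfold bd
  simp only [Finsupp.add_apply, Finset.sum_add_distrib]
  have h1 : ∀ (i : ι) (n : ℕ), ∑ l, (Finsupp.single i n) l = n := by
    intro i n
    rw [Finset.sum_eq_single i]
    · exact Finsupp.single_eq_same
    · intro l _ hl
      exact Finsupp.single_eq_of_ne hl
    · intro h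
      exact absurd (Finset.mem_univ i) h
  rw [h1, h1]

/-- an exponent with two entries whose sum is the total degree -/
lemma eq_bd {p : ℕ} {d : ι →₀ ℕ} (hd : ∑ l, d l ≤ p + 1) {i j : ι} (hij : i ≠ j) (hi : p ≤ d i)
    (hj : 1 ≤ d j) : d = bd p i j := by
  have h1 : ∑ l, d l = d i + d j + ∑ l ∈ (univ.erase i).erase j, d l := by
    rw [← Finset.add_sum_erase univ _ (mem_univ i),
      ← Finset.add_sum_erase (univ.erase i) _ (mem_erase.2 ⟨hij.symm, mem_univ j⟩), add_assoc]
  have h2 : ∑ l ∈ (univ.erase i).erase j, d l = 0 := by omega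
  ext l
  by_cases hli : l = i
  · rw [hli, bd_self hij]
    omega
  · by_cases hlj : l = j
    · rw [hlj, bd_right hij]
      omega
    · rw [bd_other hli hlj]
      exact (Finset.sum_eq_zero_iff.1 h2) l (by simp [hli, hlj])

/-- two different exponents of degree at most `p + 1` with the same reduction -/
lemma fib {p : ℕ} (hp : 2 ≤ p) {d d' : ι →₀ ℕ} (hd : ∑ l, d l ≤ p + 1)
    (he : ∑ l, d' l = ∑ l, d l) (hr : ∀ l, re p (d l) = re p (d' l)) (hne : d ≠ d') :
    ∃ i j, i ≠ j ∧ d = bd p i j ∧ d' = bd p j i := by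
  have h1 : ∃ i, d' i < d i := by
    by_contra hc
    push Not at hc
    apply hne
    have h2 : ∀ l ∈ (univ : Finset ι), d l = d' l :=
      (Finset.sum_eq_sum_iff_of_le (fun l _ => hc l)).1 he.symm
    ext l
    exact h2 l (mem_univ l)
  have h1' : ∃ j, d j < d' j := by
    by_contra hc
    push Not at hc
    apply hne
    have h2 : ∀ l ∈ (univ : Finset ι), d' l = d l :=
      (Finset.sum_eq_sum_iff_of_le (fun l _ => hc l)).1 he
    ext l
    exact (h2 l (mem_univ l)).symm
  obtain ⟨i, hi⟩ := h1
  obtain ⟨j, hj⟩ := h1'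
  have h3 := re_gap hp (hr i).symm hi
  have h4 := re_gap hp (hr j) hj
  have hij : i ≠ j := by
    rintro rfl
    omega
  refine ⟨i, j, hij, eq_bd hd hij (by omega) (by omega), ?_⟩
  exact eq_bd (by omega) hij.symm (by omega) (by omega)

/-- homogeneous of degree `k` -/
lemma deg_eq {P : MvPolynomial ι ℤ} {k : ℕ} (hP : P.IsHomogeneous k) {d : ι →₀ ℕ}
    (hd : P.coeff d ≠ 0) : ∑ i, d i = k := by
  have h3 := hP hd
  rw [← h3, Finsupp.weight_apply, Finsupp.sum_fintype _ _ (fun i => by simp)]
  simp

/-- the sums over the fibres of the reduction are divisible by `p` -/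
lemma fib_dvd {p : ℕ} (hp : p.Prime) (P : MvPolynomial ι ℤ)
    (h : ∀ a : ι → ℕ, (p : ℤ) ∣ MvPolynomial.eval (fun i => (a i : ℤ)) P) (c : ι →₀ ℕ) :
    (p : ℤ) ∣ ∑ d ∈ P.support.filter (fun d => ∀ l, re p (d l) = re p (c l)), P.coeff d := by
  have hF : Fact p.Prime := ⟨hp⟩
  have hp2 := hp.two_le
  let red : (ι →₀ ℕ) → (ι →₀ ℕ) := fun d => Finsupp.mapRange (re p) (re_zero p) d
  have hred : ∀ d l, red d l = re p (d l) := fun d l => Finsupp.mapRange_apply
  let P' : MvPolynomial ι (ZMod p) := ∑ d ∈ P.support,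
    MvPolynomial.monomial (red d) ((P.coeff d : ℤ) : ZMod p)
  have h0 : P' = 0 := by
    refine MvPolynomial.eq_zero_of_eval_eq_zero _ _ _ (fun v => ?_) ?_
    · have h1 := h fun i => (v i).val
      rw [← ZMod.intCast_zmod_eq_zero_iff_dvd _ p, MvPolynomial.eval_eq', Int.cast_sum] at h1
      rw [map_sum, ← h1]
      apply Finset.sum_congr rfl
      intro d _
      rw [MvPolynomial.eval_monomial, Finsupp.prod_fintype _ _ (fun i => by simp), Int.cast_mul,
        Int.cast_prod]
      congr 1
      apply Finset.prod_congr rfl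
      intro i _
      rw [hred, pow_re hp]
      simp
    · rw [MvPolynomial.mem_restrictDegree]
      intro s hs i
      have h1 := MvPolynomial.support_sum hs
      rw [Finset.mem_biUnion] at h1
      obtain ⟨d, _, hd⟩ := h1
      have h2 := MvPolynomial.support_monomial_subset hd
      rw [Finset.mem_singleton] at h2
      rw [h2, hred, ZMod.card]
      exact re_lt hp2 _
  have h1 := congrArg (MvPolynomial.coeff (red c)) h0
  rw [MvPolynomial.coeff_zero, MvPolynomial.coeff_sum] at h1
  simp only [MvPolynomial.coeff_monomial] at h1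
  rw [← Finset.sum_filter] at h1
  rw [← ZMod.intCast_zmod_eq_zero_iff_dvd _ p, Int.cast_sum, ← h1]
  apply Finset.sum_congr _ (fun _ _ => rfl)
  apply Finset.filter_congr
  intro d _
  constructor
  · intro h2
    ext l
    rw [hred, hred]
    exact h2 l
  · intro h2 l
    have := DFunLike.congr_fun h2 l
    rwa [hred, hred] at this

/-- divisibility by `p` -/
lemma step1 {p : ℕ} (hp : p.Prime) {P : MvPolynomial ι ℤ} {k : ℕ} (hP : P.IsHomogeneous k)
    (hk : k ≤ p + 1)
    (h : ∀ a : ι → ℕ, (p : ℤ) ∣ MvPolynomial.eval (fun i => (a i : ℤ)) P) :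
    (∀ d, (∀ i j, i ≠ j → d ≠ bd p i j) → (p : ℤ) ∣ P.coeff d) ∧
    ∀ i j, i ≠ j → (p : ℤ) ∣ P.coeff (bd p i j) + P.coeff (bd p j i) := by
  have hp2 := hp.two_le
  constructor
  · intro d hd
    by_cases h0 : P.coeff d = 0
    · rw [h0]; exact dvd_zero _
    have h1 := fib_dvd hp P h d
    have h2 : P.support.filter (fun d' => ∀ l, re p (d' l) = re p (d l)) = {d} := by
      ext d'
      rw [Finset.mem_filter, Finset.mem_singleton]
      constructor
      · rintro ⟨h3, h4⟩
        by_contra hne
        obtain ⟨i, j, hij, h5, -⟩ := fib hp2 (d := d) (d' := d')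
          (by rw [deg_eq hP h0]; exact hk)
          (by rw [deg_eq hP h0, deg_eq hP (MvPolynomial.mem_support_iff.1 h3)])
          (fun l => (h4 l).symm) (fun h => hne h.symm)
        exact hd i j hij h5
      · rintro rfl
        exact ⟨MvPolynomial.mem_support_iff.2 h0, fun _ => rfl⟩
    rw [h2, Finset.sum_singleton] at h1
    exact h1
  · intro i j hij
    by_cases hk2 : k = p + 1
    swap
    · have h1 : ∀ i j : ι, P.coeff (bd p i j) = 0 := by
        intro i j
        by_contra h0
        exact hk2 (by rw [← deg_eq hP h0, bd_sum])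
      rw [h1, h1, add_zero]
      exact dvd_zero _
    have hne : bd p i j ≠ bd p j i := fun h => hij (bd_inj hp2 hij hij.symm h).1
    have h1 := fib_dvd hp P h (bd p i j)
    have h2 : ∑ d ∈ P.support.filter (fun d => ∀ l, re p (d l) = re p (bd p i j l)), P.coeff d =
        ∑ d ∈ ({bd p i j, bd p j i} : Finset (ι →₀ ℕ)), P.coeff d := by
      apply Finset.sum_subset_zero_on_sdiff
      · intro d hd
        rw [Finset.mem_filter] at hd
        rw [Finset.mem_insert, Finset.mem_singleton]
        by_cases hdb : d = bd p i j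
        · exact Or.inl hdb
        · right
          have h0 := MvPolynomial.mem_support_iff.1 hd.1
          obtain ⟨i', j', hij', h5, h6⟩ := fib hp2 (d := bd p i j) (d' := d)
            (by rw [bd_sum]) (by rw [bd_sum, deg_eq hP h0, hk2]) (fun l => (hd.2 l).symm)
            (fun h => hdb h.symm)
          obtain ⟨rfl, rfl⟩ := bd_inj hp2 hij hij' h5
          exact h6
      · intro d hd
        rw [Finset.mem_sdiff, Finset.mem_filter, not_and_or] at hd
        obtain ⟨hd1, hd2⟩ := hd
        by_contra h0
        rcases hd2 with h3 | h3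
        · exact h0 (MvPolynomial.notMem_support_iff.1 h3)
        · apply h3
          rw [Finset.mem_insert, Finset.mem_singleton] at hd1
          rcases hd1 with rfl | rfl
          · intro l; rfl
          · intro l
            by_cases hli : l = i
            · rw [hli, bd_right hij.symm, bd_self hij]
              unfold re
              rw [if_neg (by omega), if_neg (by omega)]
              simp
            · by_cases hlj : l = j
              · rw [hlj, bd_self hij.symm, bd_right hij]
                unfold re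
                rw [if_neg (by omega), if_neg (by omega)]
                simp
              · rw [bd_other hlj hli, bd_other hli hlj]
      · intro _ _; rfl
    rw [h2, Finset.sum_pair hne] at h1
    exact h1

end poly

end Pool.Agent.K9h97.MTP
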